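import Pool.Agent.Lib.MP_26edac_al.Takiff

/-!
# The index and the codim-3 property
-/

namespace Pool.Agent.MP_26edac

open Module

universe u v

set_option linter.unusedSectionVars false

variable {K : Type u} [Field K] {L : Type v} [LieRing L] [LieAlgebra K L]
  (b : Basis (Fin 6) K L)

variable [CharZero K] (hb : ∀ i j, ⁅b i, b j⁆ = table K b i j)

include hb

theorem mem_stab_iff (ξ : Dual K L) (c : Fin 6 → K) :
    (b.equivFun.symm c) ∈ coadjointStabilizer ξ ↔
      (2 * c 1 * ξ (b 0) - c 2 * ξ (b 1) + 2 * c 4 * ξ (b 3) - c 5 * ξ (b 4) = 0 ∧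
      -(2 * c 0 * ξ (b 0)) + 2 * c 2 * ξ (b 2) - 2 * c 3 * ξ (b 3) + 2 * c 5 * ξ (b 5) = 0 ∧
      c 0 * ξ (b 1) - 2 * c 1 * ξ (b 2) + c 3 * ξ (b 4) - 2 * c 4 * ξ (b 5) = 0) ∧
      (2 * c 1 * ξ (b 3) - c 2 * ξ (b 4) = 0 ∧
      -(2 * c 0 * ξ (b 3)) + 2 * c 2 * ξ (b 5) = 0 ∧
      c 0 * ξ (b 4) - 2 * c 1 * ξ (b 5) = 0) := by
  rw [Basis.equivFun_symm_apply]
  have key : ∀ j, ξ ⁅∑ i, c i • b i, b j⁆ = ∑ i, c i * ξ (table K b i j) := by
    intro j
    rw [sum_lie, map_sum]
    apply Finset.sum_congr rfl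
    intro i _
    rw [smul_lie, map_smul, hb, smul_eq_mul]
  have h1 : (∑ i, c i • b i) ∈ coadjointStabilizer ξ ↔
      ∀ j, ∑ i, c i * ξ (table K b i j) = 0 := by
    constructor
    · intro h j
      rw [← key]
      exact h (b j)
    · intro h y
      have hy : y = ∑ j, b.repr y j • b j := (b.sum_repr y).symm
      rw [hy, lie_sum, map_sum]
      apply Finset.sum_eq_zero
      intro j _
      rw [lie_smul, map_smul, key, h, smul_zero]
  rw [h1]
  simp only [Fin.forall_fin_succ, Fin.sum_univ_six]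
  simp [table]
  constructor
  · rintro ⟨h0, h1, h2, h3, h4, h5⟩
    refine ⟨⟨?_, ?_, ?_⟩, ?_, ?_, ?_⟩
    · linear_combination h0
    · linear_combination h1
    · linear_combination h2
    · linear_combination h3
    · linear_combination h4
    · linear_combination h5
  · rintro ⟨⟨h0, h1, h2⟩, h3, h4, h5⟩
    refine ⟨?_, ?_, ?_, ?_, ?_, ?_⟩
    · linear_combination h0
    · linear_combination h1
    · linear_combination h2
    · linear_combination h3
    · linear_combination h4
    · linear_combination h5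

omit hb in
theorem kernel_line (p3 p4 p5 a0 a1 a2 : K) (hp : ¬ (p3 = 0 ∧ p4 = 0 ∧ p5 = 0))
    (h1 : 2 * a1 * p3 - a2 * p4 = 0) (h2 : -(2 * a0 * p3) + 2 * a2 * p5 = 0)
    (h3 : a0 * p4 - 2 * a1 * p5 = 0) :
    ∃ β, a0 = β * (2 * p5) ∧ a1 = β * p4 ∧ a2 = β * (2 * p3) := by
  have h2' : (2 : K) ≠ 0 := two_ne_zero
  by_cases h : p3 = 0
  · by_cases h' : p4 = 0
    · have h5 : p5 ≠ 0 := fun h5 => hp ⟨h, h', h5⟩
      subst h; subst h'
      have ha2 : a2 = 0 := by
        have : 2 * p5 * a2 = 0 := by linear_combination h2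
        exact (mul_eq_zero.1 this).resolve_left (mul_ne_zero h2' h5)
      have ha1 : a1 = 0 := by
        have : 2 * p5 * a1 = 0 := by linear_combination -h3
        exact (mul_eq_zero.1 this).resolve_left (mul_ne_zero h2' h5)
      refine ⟨a0 / (2 * p5), ?_, ?_, ?_⟩
      · field_simp
      · rw [ha1]; ring
      · rw [ha2]; ring
    · subst h
      have ha2 : a2 = 0 := by
        have : p4 * a2 = 0 := by linear_combination -h1
        exact (mul_eq_zero.1 this).resolve_left h'
      refine ⟨a1 / p4, ?_, ?_, ?_⟩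
      · field_simp
        linear_combination h3
      · field_simp
      · rw [ha2]; ring
  · refine ⟨a2 / (2 * p3), ?_, ?_, ?_⟩
    · field_simp
      have : 2 * (a0 * p3 - a2 * p5) = 0 := by linear_combination -h2
      have := (mul_eq_zero.1 this).resolve_left h2'
      linear_combination this
    · field_simp
      linear_combination h1
    · field_simp

theorem finrank_stab_regular (ξ : Dual K L)
    (hp : ¬ (ξ (b 3) = 0 ∧ ξ (b 4) = 0 ∧ ξ (b 5) = 0)) :
    finrank K (coadjointStabilizer ξ) = 2 := by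
  set c : Fin 6 → K := ![0, 0, 0, 2 * ξ (b 5), ξ (b 4), 2 * ξ (b 3)] with hc
  set d : Fin 6 → K := ![2 * ξ (b 5), ξ (b 4), 2 * ξ (b 3), 2 * ξ (b 2), ξ (b 1), 2 * ξ (b 0)]
    with hd
  have hcm : b.equivFun.symm c ∈ coadjointStabilizer ξ := by
    rw [mem_stab_iff b hb]
    simp [hc]
    refine ⟨?_, ?_, ?_⟩ <;> ring
  have hdm : b.equivFun.symm d ∈ coadjointStabilizer ξ := by
    rw [mem_stab_iff b hb]
    simp [hd]
    refine ⟨⟨?_, ?_, ?_⟩, ?_, ?_, ?_⟩ <;> ring
  have hspan : coadjointStabilizer ξ =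
      Submodule.span K (Set.range ![b.equivFun.symm c, b.equivFun.symm d]) := by
    apply le_antisymm
    · intro x hx
      obtain ⟨a, rfl⟩ := b.equivFun.symm.surjective x
      obtain ⟨⟨h0, h1, h2⟩, h3, h4, h5⟩ := (mem_stab_iff b hb ξ a).1 hx
      obtain ⟨β, e0, e1, e2⟩ := kernel_line _ _ _ _ _ _ hp h3 h4 h5
      have := Submodule.sub_mem _ hx (Submodule.smul_mem _ β hdm)
      rw [← map_smul, ← map_sub, mem_stab_iff b hb] at this
      obtain ⟨⟨g0, g1, g2⟩, -⟩ := this
      simp [hd, e0, e1, e2] at g0 g1 g2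
      obtain ⟨α, f0, f1, f2⟩ := kernel_line (ξ (b 3)) (ξ (b 4)) (ξ (b 5))
        (a 3 - β * (2 * ξ (b 2))) (a 4 - β * ξ (b 1)) (a 5 - β * (2 * ξ (b 0))) hp
        (by linear_combination g0) (by linear_combination g1) (by linear_combination g2)
      have hx' : a = α • c + β • d := by
        funext i
        fin_cases i
        · simp [hc, hd, e0]
        · simp [hc, hd, e1]
        · simp [hc, hd, e2]
        · simp [hc, hd]; linear_combination f0
        · simp [hc, hd]; linear_combination f1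
        · simp [hc, hd]; linear_combination f2
      rw [hx', map_add, map_smul, map_smul]
      apply Submodule.add_mem
      · exact Submodule.smul_mem _ _ (Submodule.subset_span ⟨0, rfl⟩)
      · exact Submodule.smul_mem _ _ (Submodule.subset_span ⟨1, rfl⟩)
    · rw [Submodule.span_le]
      rintro _ ⟨i, rfl⟩
      fin_cases i
      · exact hcm
      · exact hdm
  have hli : LinearIndependent K ![b.equivFun.symm c, b.equivFun.symm d] := by
    rw [LinearIndependent.pair_iff]
    intro s t hst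
    rw [← map_smul, ← map_smul, ← map_add, LinearEquiv.map_eq_zero_iff] at hst
    have h2' : (2 : K) ≠ 0 := two_ne_zero
    have c0 := congrFun hst 0
    have c1 := congrFun hst 1
    have c2 := congrFun hst 2
    have c3 := congrFun hst 3
    have c4 := congrFun hst 4
    have c5 := congrFun hst 5
    simp [hc, hd] at c0 c1 c2 c3 c4 c5
    have ht : t = 0 := by
      by_contra ht
      exact hp ⟨c2.resolve_left ht, c1.resolve_left ht, c0.resolve_left ht⟩
    subst ht
    simp at c3 c4 c5
    refine ⟨?_, rfl⟩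
    by_contra hs
    exact hp ⟨c5.resolve_left hs, c4.resolve_left hs, c3.resolve_left hs⟩
  rw [hspan, finrank_span_eq_card hli]
  rfl

theorem finrank_stab_singular (ξ : Dual K L)
    (hp : ξ (b 3) = 0 ∧ ξ (b 4) = 0 ∧ ξ (b 5) = 0) :
    3 ≤ finrank K (coadjointStabilizer ξ) := by
  have : FiniteDimensional K L := b.finiteDimensional_of_finite
  have hli : LinearIndependent K ![b 3, b 4, b 5] := by
    have := b.linearIndependent.comp (![3, 4, 5] : Fin 3 → Fin 6) (by decide)
    convert this using 1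
    funext i
    fin_cases i <;> rfl
  have h1 := finrank_span_eq_card hli
  have h2 : Submodule.span K (Set.range ![b 3, b 4, b 5]) ≤ coadjointStabilizer ξ := by
    rw [Submodule.span_le]
    have key : ∀ c : Fin 6 → K, c 0 = 0 → c 1 = 0 → c 2 = 0 →
        b.equivFun.symm c ∈ coadjointStabilizer ξ := by
      intro c h0 h1 h2
      rw [mem_stab_iff b hb]
      simp [h0, h1, h2, hp.1, hp.2.1, hp.2.2]
    have key' : ∀ i : Fin 6, b i = b.equivFun.symm (Pi.single i 1) := by
      intro i
      rw [Basis.equivFun_symm_apply]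
      simp [Pi.single_apply]
    rintro _ ⟨i, rfl⟩
    fin_cases i
    · change b 3 ∈ _
      rw [key' 3]; exact key _ (by simp) (by simp) (by simp)
    · change b 4 ∈ _
      rw [key' 4]; exact key _ (by simp) (by simp) (by simp)
    · change b 5 ∈ _
      rw [key' 5]; exact key _ (by simp) (by simp) (by simp)
  calc 3 = finrank K (Submodule.span K (Set.range ![b 3, b 4, b 5])) := by rw [h1]; rfl
    _ ≤ _ := Submodule.finrank_mono h2

theorem lieIndex_eq : lieIndex K L = 2 := by
  apply le_antisymm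
  · apply Nat.sInf_le
    refine ⟨b.coord 3, finrank_stab_regular b hb _ ?_⟩
    rintro ⟨h, -, -⟩
    simp at h
  · have hne : (Set.range fun ξ : Dual K L => finrank K (coadjointStabilizer ξ)).Nonempty :=
      ⟨_, 0, rfl⟩
    obtain ⟨ξ, hξ⟩ := Nat.sInf_mem hne
    rw [lieIndex, ← hξ]
    change 2 ≤ finrank K (coadjointStabilizer ξ)
    by_cases hp : ξ (b 3) = 0 ∧ ξ (b 4) = 0 ∧ ξ (b 5) = 0
    · exact le_trans (by norm_num) (finrank_stab_singular b hb ξ hp)
    · exact (finrank_stab_regular b hb ξ hp).ge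

theorem mem_singularSet (ξ : Dual K L) (h : ξ ∈ singularSet K L) :
    ξ (b 3) = 0 ∧ ξ (b 4) = 0 ∧ ξ (b 5) = 0 := by
  by_contra hp
  apply h
  rw [lieIndex_eq b hb, finrank_stab_regular b hb ξ hp]

/-- The endomorphism of `S(L)` which kills some of the variables. -/
noncomputable def kill (w : Fin 6 → SymmetricAlgebra K L) :
    SymmetricAlgebra K L →ₐ[K] SymmetricAlgebra K L :=
  SymmetricAlgebra.lift (b.constr K w)

omit hb [CharZero K] in
theorem kill_vr (w : Fin 6 → SymmetricAlgebra K L) (i : Fin 6) : kill b w (vr b i) = w i := by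
  simp [kill]

omit hb [CharZero K] in
theorem algHom_ext_vr {A : Type*} [CommSemiring A] [Algebra K A]
    (f g : SymmetricAlgebra K L →ₐ[K] A) (h : ∀ i, f (vr b i) = g (vr b i)) : f = g := by
  apply SymmetricAlgebra.algHom_ext
  apply b.ext
  intro i
  exact h i

/-- The codim-3 property. -/
theorem codim_three : CodimProperty K L 3 := by
  have hvr : ∀ i, vr b i ≠ 0 := by
    intro i h0
    have h1 := congrArg (SymmetricAlgebra.lift (b.constr K (fun _ => (1 : K)))) h0
    simp at h1
  let k1 := kill b ![vr b 0, vr b 1, vr b 2, 0, vr b 4, vr b 5]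
  let k2 := kill b ![vr b 0, vr b 1, vr b 2, 0, 0, vr b 5]
  let k3 := kill b ![vr b 0, vr b 1, vr b 2, 0, 0, 0]
  have h12 : k2 = k2.comp k1 := by
    apply algHom_ext_vr b
    intro i
    rw [AlgHom.comp_apply]
    fin_cases i <;> simp [k1, k2, kill]
  have h23 : k3 = k3.comp k2 := by
    apply algHom_ext_vr b
    intro i
    rw [AlgHom.comp_apply]
    fin_cases i <;> simp [k3, k2, kill]
  have : FiniteDimensional K L := b.finiteDimensional_of_finite
  have p1 : (RingHom.ker k1).IsPrime := RingHom.ker_isPrime _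
  have p2 : (RingHom.ker k2).IsPrime := RingHom.ker_isPrime _
  have p3 : (RingHom.ker k3).IsPrime := RingHom.ker_isPrime _
  have p0 : (⊥ : Ideal (SymmetricAlgebra K L)).IsPrime := Ideal.isPrime_bot
  have l01 : (⊥ : Ideal (SymmetricAlgebra K L)) < RingHom.ker k1 := by
    rw [bot_lt_iff_ne_bot]
    intro h
    have : vr b 3 ∈ RingHom.ker k1 := by
      rw [RingHom.mem_ker]; exact kill_vr b _ 3
    rw [h] at this
    exact hvr 3 this
  have l12 : RingHom.ker k1 < RingHom.ker k2 := by
    apply lt_of_le_of_ne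
    · intro a ha
      rw [RingHom.mem_ker] at ha ⊢
      rw [h12, AlgHom.comp_apply, ha, map_zero]
    · intro h
      have : vr b 4 ∈ RingHom.ker k2 := by
        rw [RingHom.mem_ker]; exact kill_vr b _ 4
      rw [← h, RingHom.mem_ker] at this
      have h' : k1 (vr b 4) = vr b 4 := kill_vr b _ 4
      exact hvr 4 (h'.symm.trans this)
  have l23 : RingHom.ker k2 < RingHom.ker k3 := by
    apply lt_of_le_of_ne
    · intro a ha
      rw [RingHom.mem_ker] at ha ⊢
      rw [h23, AlgHom.comp_apply, ha, map_zero]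
    · intro h
      have : vr b 5 ∈ RingHom.ker k3 := by
        rw [RingHom.mem_ker]; exact kill_vr b _ 5
      rw [← h, RingHom.mem_ker] at this
      have h' : k2 (vr b 5) = vr b 5 := kill_vr b _ 5
      exact hvr 5 (h'.symm.trans this)
  have hle : RingHom.ker k3 ≤ vanishingIdeal (singularSet K L) := by
    intro a ha
    rw [RingHom.mem_ker] at ha
    simp only [vanishingIdeal, Ideal.mem_iInf, RingHom.mem_ker]
    intro ξ hξ
    obtain ⟨h3, h4, h5⟩ := mem_singularSet b hb ξ hξ
    have : evalAt K ξ = (evalAt K ξ).comp k3 := by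
      apply algHom_ext_vr b
      intro i
      rw [AlgHom.comp_apply]
      fin_cases i
      · change _ = evalAt K ξ (k3 (vr b 0)); rw [kill_vr]; rfl
      · change _ = evalAt K ξ (k3 (vr b 1)); rw [kill_vr]; rfl
      · change _ = evalAt K ξ (k3 (vr b 2)); rw [kill_vr]; rfl
      · change _ = evalAt K ξ (k3 (vr b 3)); rw [kill_vr]; simp [evalAt, h3]
      · change _ = evalAt K ξ (k3 (vr b 4)); rw [kill_vr]; simp [evalAt, h4]
      · change _ = evalAt K ξ (k3 (vr b 5)); rw [kill_vr]; simp [evalAt, h5]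
    rw [this, AlgHom.comp_apply, ha, map_zero]
  have q1 := Ideal.height_add_one_le_of_lt_of_isPrime l01
  have q2 := Ideal.height_add_one_le_of_lt_of_isPrime l12
  have q3 := Ideal.height_add_one_le_of_lt_of_isPrime l23
  have q4 := Ideal.height_mono hle
  rw [CodimProperty, codimension]
  refine le_trans ?_ q4
  refine le_trans ?_ q3
  have e2 : (2 : ℕ∞) ≤ (RingHom.ker k2).height := by
    refine le_trans ?_ q2
    have e1 : (1 : ℕ∞) ≤ (RingHom.ker k1).height := by
      refine le_trans ?_ q1
      simp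
    calc (2 : ℕ∞) = 1 + 1 := by norm_num
      _ ≤ _ := by gcongr
  calc ((3 : ℕ) : ℕ∞) = 2 + 1 := by norm_num
    _ ≤ _ := by gcongr

end Pool.Agent.MP_26edac
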