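import Mathlib

/-!
# Definitions for the problem on Z2-contractions of semisimple Lie algebras

The symmetric algebra with its Lie-Poisson bracket, the coadjoint stabilisers, the index,
the codim-n property, commutative subalgebras, and the Z2-contraction of a Lie algebra with an
involution.
-/

namespace Pool.Agent.MP_26edac

open Module

universe u v w

section SymDer

variable {K : Type u} [CommRing K] {M : Type v} [AddCommGroup M] [Module K M]
variable {N : Type w} [AddCommGroup N] [Module K N] [Module (SymmetricAlgebra K M) N]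
  [IsScalarTower K (SymmetricAlgebra K M) N]

/-- The right module structure used to form the square-zero extension. -/
@[reducible] noncomputable def opModule : Module (SymmetricAlgebra K M)ᵐᵒᵖ N :=
  Module.compHom N ((RingHom.id (SymmetricAlgebra K M)).fromOpposite mul_comm)

attribute [local instance] opModule

omit [Module K N] [IsScalarTower K (SymmetricAlgebra K M) N] in
/-- The right module structure is central. -/
theorem opCentral : IsCentralScalar (SymmetricAlgebra K M) N := ⟨fun _ _ => rfl⟩

attribute [local instance] opCentral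

/-- The algebra map `S(M) → S(M) ⊕ N` (square-zero extension) with `x ↦ x + f x` on `M`. -/
noncomputable def symDerAux (f : M →ₗ[K] N) :
    SymmetricAlgebra K M →ₐ[K] TrivSqZeroExt (SymmetricAlgebra K M) N :=
  SymmetricAlgebra.lift
    ((TrivSqZeroExt.inlAlgHom K (SymmetricAlgebra K M) N).toLinearMap ∘ₗ SymmetricAlgebra.ι K M +
      ((TrivSqZeroExt.inrHom (SymmetricAlgebra K M) N).restrictScalars K) ∘ₗ f)

theorem symDerAux_fst (f : M →ₗ[K] N) (a : SymmetricAlgebra K M) :
    (symDerAux f a).fst = a := by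
  have : (TrivSqZeroExt.fstHom K (SymmetricAlgebra K M) N).comp (symDerAux f) =
      AlgHom.id K (SymmetricAlgebra K M) := by
    apply SymmetricAlgebra.algHom_ext
    ext x
    simp [symDerAux]
  exact DFunLike.congr_fun this a

/-- The unique `K`-derivation `S(M) → N` of the symmetric algebra which extends the linear map
`f : M → N`. -/
noncomputable def symDer (f : M →ₗ[K] N) : Derivation K (SymmetricAlgebra K M) N where
  toFun a := (symDerAux f a).snd
  map_add' a b := by simp
  map_smul' c a := by simp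
  map_one_eq_zero' := by simp
  leibniz' a b := by
    change (symDerAux f (a * b)).snd = a • (symDerAux f b).snd + b • (symDerAux f a).snd
    rw [map_mul, TrivSqZeroExt.snd_mul, symDerAux_fst, symDerAux_fst]
    rfl

@[simp] theorem symDer_ι (f : M →ₗ[K] N) (x : M) : symDer f (SymmetricAlgebra.ι K M x) = f x := by
  change (symDerAux f (SymmetricAlgebra.ι K M x)).snd = f x
  simp [symDerAux]

end SymDer

/-- Two derivations of a symmetric algebra which agree on the generators are equal. -/
theorem symDer_ext {K : Type u} [CommRing K] {M : Type v} [AddCommGroup M] [Module K M]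
    {N : Type w} [AddCommGroup N] [Module K N] [Module (SymmetricAlgebra K M) N]
    [IsScalarTower K (SymmetricAlgebra K M) N]
    (D D' : Derivation K (SymmetricAlgebra K M) N)
    (h : ∀ x, D (SymmetricAlgebra.ι K M x) = D' (SymmetricAlgebra.ι K M x)) : D = D' := by
  ext a
  induction a using SymmetricAlgebra.induction with
  | algebraMap r => simp
  | ι x => exact h x
  | mul a b ha hb => simp [ha, hb]
  | add a b ha hb => simp [ha, hb]

section Poisson

variable (K : Type u) [CommRing K] (L : Type v) [LieRing L] [LieAlgebra K L]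

/-- The Hamiltonian derivation `{x, ·}` of `S(L)` attached to `x ∈ L`: the derivation which extends
`y ↦ ⁅x, y⁆`. -/
noncomputable def hamiltonian : L →ₗ[K] Derivation K (SymmetricAlgebra K L) (SymmetricAlgebra K L)
    where
  toFun x := symDer (SymmetricAlgebra.ι K L ∘ₗ (LieAlgebra.ad K L x : L →ₗ[K] L))
  map_add' x y := by
    apply symDer_ext
    intro z
    simp
  map_smul' c x := by
    apply symDer_ext
    intro z
    simp

/-- The Lie-Poisson bracket on `S(L)`: the biderivation with `{x, y} = ⁅x, y⁆` for `x, y ∈ L`. -/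
noncomputable def poisson :
    Derivation K (SymmetricAlgebra K L)
      (Derivation K (SymmetricAlgebra K L) (SymmetricAlgebra K L)) :=
  symDer (hamiltonian K L)

variable {K L}

@[simp] theorem poisson_ι_ι (x y : L) :
    poisson K L (SymmetricAlgebra.ι K L x) (SymmetricAlgebra.ι K L y) =
      SymmetricAlgebra.ι K L ⁅x, y⁆ := by
  simp [poisson, hamiltonian]

end Poisson

section Invariants

variable (K : Type u) [Field K] (L : Type v) [LieRing L] [LieAlgebra K L]

variable {K L} in
/-- The stabiliser `L^ξ = {x : ξ ⁅x, y⁆ = 0 for all y}` of `ξ ∈ L^*` for the coadjoint action. -/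
def coadjointStabilizer (ξ : Dual K L) : Submodule K L where
  carrier := {x | ∀ y, ξ ⁅x, y⁆ = 0}
  add_mem' {a b} ha hb y := by simp [ha y, hb y]
  zero_mem' y := by simp
  smul_mem' c x hx y := by simp [hx y]

/-- The index `ind L = min_ξ dim L^ξ`. -/
noncomputable def lieIndex : ℕ := sInf (Set.range fun ξ : Dual K L => finrank K (coadjointStabilizer ξ))

/-- The singular set `L^*_sing`: the linear forms `ξ` with `dim L^ξ ≠ ind L`. -/
def singularSet : Set (Dual K L) := {ξ | finrank K (coadjointStabilizer ξ) ≠ lieIndex K L}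

variable {L} in
/-- The value `F(ξ)` of `F ∈ S(L) = K[L^*]` at the point `ξ ∈ L^*`. -/
noncomputable def evalAt (ξ : Dual K L) : SymmetricAlgebra K L →ₐ[K] K := SymmetricAlgebra.lift ξ

variable {K L} in
/-- The vanishing ideal in `S(L) = K[L^*]` of a subset of `L^*`. -/
noncomputable def vanishingIdeal (Z : Set (Dual K L)) : Ideal (SymmetricAlgebra K L) :=
  ⨅ ξ ∈ Z, RingHom.ker (evalAt K ξ)

variable {K L} in
/-- The codimension in `L^*` of (the Zariski closure of) a subset `Z` of `L^*`: the height of the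
vanishing ideal of `Z` in `S(L) = K[L^*]`. -/
noncomputable def codimension (Z : Set (Dual K L)) : ℕ∞ := (vanishingIdeal Z).height

/-- The codim-`n` property: the singular set has codimension at least `n`. -/
def CodimProperty (n : ℕ) : Prop := (n : ℕ∞) ≤ codimension (singularSet K L)

variable {K L}

/-- A subalgebra `A` of `S(L)` is (Poisson-)commutative if `{F, G} = 0` for all `F, G ∈ A`. -/
def IsPoissonCommutative (A : Subalgebra K (SymmetricAlgebra K L)) : Prop :=
  ∀ F ∈ A, ∀ G ∈ A, poisson K L F G = 0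

/-- A subalgebra of `S(L)` is maximal commutative if it is commutative and no strictly larger
subalgebra is commutative. -/
def IsMaximalPoissonCommutative (A : Subalgebra K (SymmetricAlgebra K L)) : Prop :=
  IsPoissonCommutative A ∧
    ∀ B : Subalgebra K (SymmetricAlgebra K L), IsPoissonCommutative B → A ≤ B → A = B

/-- A subalgebra `A` of `S(L)` has maximal dimension if its transcendence degree is
`b(L) = (dim L + ind L) / 2`. -/
def HasMaximalDimension (A : Subalgebra K (SymmetricAlgebra K L)) : Prop :=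
  2 * Algebra.trdeg K A = ((finrank K L + lieIndex K L : ℕ) : Cardinal)

/-- A subalgebra is polynomial if it is generated by algebraically independent elements. -/
def IsPolynomialSubalgebra (A : Subalgebra K (SymmetricAlgebra K L)) : Prop :=
  ∃ s : Set (SymmetricAlgebra K L),
    AlgebraicIndependent K ((↑) : s → SymmetricAlgebra K L) ∧ Algebra.adjoin K s = A

end Invariants

section Contraction

variable {K : Type u} [Field K] {𝔤 : Type v} [LieRing 𝔤] [LieAlgebra K 𝔤]

/-- The fixed subspace `𝔤₀ = {x : θ x = x}`. -/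
def evenPart (θ : 𝔤 →ₗ⁅K⁆ 𝔤) : Submodule K 𝔤 where
  carrier := {x | θ x = x}
  add_mem' {a b} ha hb := by
    simp only [Set.mem_ofPred_eq] at *
    rw [map_add, ha, hb]
  zero_mem' := by simp
  smul_mem' c x hx := by
    simp only [Set.mem_ofPred_eq] at *
    rw [map_smul, hx]

/-- The anti-fixed subspace `𝔤₁ = {x : θ x = -x}`. -/
def oddPart (θ : 𝔤 →ₗ⁅K⁆ 𝔤) : Submodule K 𝔤 where
  carrier := {x | θ x = -x}
  add_mem' {a b} ha hb := by
    simp only [Set.mem_ofPred_eq] at *
    rw [map_add, ha, hb]; abel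
  zero_mem' := by simp
  smul_mem' c x hx := by
    simp only [Set.mem_ofPred_eq] at *
    rw [map_smul, hx, smul_neg]

theorem lie_even_even {θ : 𝔤 →ₗ⁅K⁆ 𝔤} {a b : 𝔤} (ha : a ∈ evenPart θ) (hb : b ∈ evenPart θ) :
    ⁅a, b⁆ ∈ evenPart θ := by
  change θ ⁅a, b⁆ = ⁅a, b⁆
  rw [LieHom.map_lie, show θ a = a from ha, show θ b = b from hb]

theorem lie_even_odd {θ : 𝔤 →ₗ⁅K⁆ 𝔤} {a b : 𝔤} (ha : a ∈ evenPart θ) (hb : b ∈ oddPart θ) :
    ⁅a, b⁆ ∈ oddPart θ := by
  change θ ⁅a, b⁆ = -⁅a, b⁆
  rw [LieHom.map_lie, show θ a = a from ha, show θ b = -b from hb, lie_neg]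

/-- The contraction `𝔨 = 𝔤₀ ⋉ 𝔤₁` of `𝔤` attached to `θ`: the vector space `𝔤₀ ⊕ 𝔤₁` with
the bracket `⁅(a, u), (b, v)⁆ = (⁅a, b⁆, ⁅a, v⁆ - ⁅b, u⁆)`. -/
def Contraction (θ : 𝔤 →ₗ⁅K⁆ 𝔤) : Type v := evenPart θ × oddPart θ

namespace Contraction

variable (θ : 𝔤 →ₗ⁅K⁆ 𝔤)

instance : AddCommGroup (Contraction θ) := inferInstanceAs (AddCommGroup (evenPart θ × oddPart θ))

instance : Module K (Contraction θ) := inferInstanceAs (Module K (evenPart θ × oddPart θ))

instance : Bracket (Contraction θ) (Contraction θ) where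
  bracket x y := (⟨⁅(x.1 : 𝔤), (y.1 : 𝔤)⁆, lie_even_even x.1.2 y.1.2⟩,
    ⟨⁅(x.1 : 𝔤), (y.2 : 𝔤)⁆ - ⁅(y.1 : 𝔤), (x.2 : 𝔤)⁆,
      sub_mem (lie_even_odd x.1.2 y.2.2) (lie_even_odd y.1.2 x.2.2)⟩)

variable {θ}

theorem ext' {x y : Contraction θ} (h1 : (x.1 : 𝔤) = y.1) (h2 : (x.2 : 𝔤) = y.2) : x = y :=
  Prod.ext (Subtype.ext h1) (Subtype.ext h2)

@[simp] theorem add_fst (x y : Contraction θ) : ((x + y).1 : 𝔤) = x.1 + y.1 := rfl
@[simp] theorem add_snd (x y : Contraction θ) : ((x + y).2 : 𝔤) = x.2 + y.2 := rfl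
@[simp] theorem zero_fst : ((0 : Contraction θ).1 : 𝔤) = 0 := rfl
@[simp] theorem zero_snd : ((0 : Contraction θ).2 : 𝔤) = 0 := rfl
@[simp] theorem smul_fst (c : K) (x : Contraction θ) : ((c • x).1 : 𝔤) = c • (x.1 : 𝔤) := rfl
@[simp] theorem smul_snd (c : K) (x : Contraction θ) : ((c • x).2 : 𝔤) = c • (x.2 : 𝔤) := rfl
@[simp] theorem lie_fst (x y : Contraction θ) : ((⁅x, y⁆ : Contraction θ).1 : 𝔤) =
    ⁅(x.1 : 𝔤), (y.1 : 𝔤)⁆ := rfl
@[simp] theorem lie_snd (x y : Contraction θ) : ((⁅x, y⁆ : Contraction θ).2 : 𝔤) =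
    ⁅(x.1 : 𝔤), (y.2 : 𝔤)⁆ - ⁅(y.1 : 𝔤), (x.2 : 𝔤)⁆ := rfl

instance : LieRing (Contraction θ) where
  add_lie x y z := by apply ext' <;> simp; abel
  lie_add x y z := by apply ext' <;> simp; abel
  lie_self x := by apply ext' <;> simp
  leibniz_lie x y z := by
    apply ext'
    · simp
    · simp only [lie_snd, lie_fst, add_snd, lie_sub, lie_lie]
      abel

instance : LieAlgebra K (Contraction θ) where
  lie_smul c x y := by apply ext' <;> simp [smul_sub]

end Contraction

end Contraction

end Pool.Agent.MP_26edac
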