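import Pool.Agent.Lib.MP_26edac_al.Takiff

/-!
# The semisimple Lie algebra `sl₂ × sl₂`, its swap involution and the contraction
-/

namespace Pool.Agent.MP_26edac

open Module

universe u v

set_option linter.unusedSectionVars false

/-- The Lie algebra `sl₂`, with coordinates `x = x₀ e + x₁ h + x₂ f`. -/
def Sl2 (K : Type u) : Type u := Fin 3 → K

namespace Sl2

variable (K : Type u) [Field K]

instance : AddCommGroup (Sl2 K) := inferInstanceAs (AddCommGroup (Fin 3 → K))
instance : Module K (Sl2 K) := inferInstanceAs (Module K (Fin 3 → K))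
instance : FiniteDimensional K (Sl2 K) := inferInstanceAs (FiniteDimensional K (Fin 3 → K))

variable {K}

@[ext] theorem ext {x y : Sl2 K} (h : ∀ i, x i = y i) : x = y := funext h

instance : Bracket (Sl2 K) (Sl2 K) where
  bracket x y := ![2 * (x 1 * y 0 - x 0 * y 1), x 0 * y 2 - x 2 * y 0, 2 * (x 2 * y 1 - x 1 * y 2)]

@[simp] theorem add_app (x y : Sl2 K) (i : Fin 3) : (x + y) i = x i + y i := rfl
@[simp] theorem neg_app (x : Sl2 K) (i : Fin 3) : (-x) i = -(x i) := rfl
@[simp] theorem sub_app (x y : Sl2 K) (i : Fin 3) : (x - y) i = x i - y i := rfl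
@[simp] theorem zero_app (i : Fin 3) : (0 : Sl2 K) i = 0 := rfl
@[simp] theorem smul_app (c : K) (x : Sl2 K) (i : Fin 3) : (c • x) i = c * x i := rfl
@[simp] theorem lie0 (x y : Sl2 K) : ⁅x, y⁆ 0 = 2 * (x 1 * y 0 - x 0 * y 1) := rfl
@[simp] theorem lie1 (x y : Sl2 K) : ⁅x, y⁆ 1 = x 0 * y 2 - x 2 * y 0 := rfl
@[simp] theorem lie2 (x y : Sl2 K) : ⁅x, y⁆ 2 = 2 * (x 2 * y 1 - x 1 * y 2) := rfl

theorem ext3 {x y : Sl2 K} (h0 : x 0 = y 0) (h1 : x 1 = y 1) (h2 : x 2 = y 2) : x = y := by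
  ext i
  fin_cases i
  · exact h0
  · exact h1
  · exact h2

instance : LieRing (Sl2 K) where
  add_lie x y z := by apply ext3 <;> simp <;> ring
  lie_add x y z := by apply ext3 <;> simp <;> ring
  lie_self x := by
    apply ext3
    · simp only [lie0, zero_app]; ring
    · simp only [lie1, zero_app]; ring
    · simp only [lie2, zero_app]; ring
  leibniz_lie x y z := by apply ext3 <;> simp <;> ring

instance : LieAlgebra K (Sl2 K) where
  lie_smul c x y := by apply ext3 <;> simp <;> ring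

/-- The element of `Sl2` with given coordinates. -/
def mk (a b c : K) : Sl2 K := ![a, b, c]

@[simp] theorem mk0 (a b c : K) : mk a b c 0 = a := rfl
@[simp] theorem mk1 (a b c : K) : mk a b c 1 = b := rfl
@[simp] theorem mk2 (a b c : K) : mk a b c 2 = c := rfl

theorem eq_zero_of_sq [CharZero K] (u : Sl2 K) (h : ∀ v : Sl2 K, ⁅u, ⁅v, u⁆⁆ = 0) : u = 0 := by
  have h2 : (2 : K) ≠ 0 := two_ne_zero
  have e2 := congrFun (h (mk 1 0 0)) 2
  have u2 : u 2 = 0 := by
    have : 2 * (u 2 * u 2) = 0 := by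
      change ⁅u, ⁅mk 1 0 0, u⁆⁆ 2 = 0 at e2
      simp only [lie2, lie1, mk0, mk1, mk2] at e2
      linear_combination e2
    have := (mul_eq_zero.1 this).resolve_left h2
    exact mul_self_eq_zero.1 this
  have e0 := congrFun (h (mk 1 0 0)) 0
  have u1 : u 1 = 0 := by
    change ⁅u, ⁅mk 1 0 0, u⁆⁆ 0 = 0 at e0
    simp [u2] at e0
    exact e0
  have f0 := congrFun (h (mk 0 0 1)) 0
  have u0 : u 0 = 0 := by
    change ⁅u, ⁅mk 0 0 1, u⁆⁆ 0 = 0 at f0
    simp [u2, u1] at f0
    exact f0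
  exact ext3 u0 u1 u2

end Sl2

section Product

variable (K : Type u) [Field K] [CharZero K]

/-- `sl₂ × sl₂` has trivial radical. -/
instance : LieAlgebra.HasTrivialRadical K (Sl2 K × Sl2 K) := by
  rw [LieAlgebra.hasTrivialRadical_iff_no_abelian_ideals]
  intro I hI
  rw [LieSubmodule.eq_bot_iff]
  intro x hx
  have key : ∀ y : Sl2 K × Sl2 K, ⁅x, ⁅y, x⁆⁆ = 0 := by
    intro y
    have hy : ⁅y, x⁆ ∈ I := I.lie_mem hx
    have := hI.trivial ⟨x, hx⟩ ⟨_, hy⟩
    exact congrArg Subtype.val this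
  apply Prod.ext
  · apply Sl2.eq_zero_of_sq
    intro v
    exact congrArg Prod.fst (key (v, 0))
  · apply Sl2.eq_zero_of_sq
    intro v
    exact congrArg Prod.snd (key (0, v))

theorem semisimple_prod : LieAlgebra.IsSemisimple K (Sl2 K × Sl2 K) := inferInstance

end Product

section Swap

variable (K : Type u) [Field K]

/-- The swap involution. -/
def swap : Sl2 K × Sl2 K →ₗ⁅K⁆ Sl2 K × Sl2 K where
  toFun x := (x.2, x.1)
  map_add' _ _ := rfl
  map_smul' _ _ := rfl
  map_lie' := rfl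

theorem mem_even (x : Sl2 K × Sl2 K) : x ∈ evenPart (swap K) ↔ x.2 = x.1 := by
  constructor
  · intro h
    exact congrArg Prod.fst (h : (x.2, x.1) = x)
  · intro h
    change (x.2, x.1) = x
    exact Prod.ext h h.symm

theorem mem_odd (x : Sl2 K × Sl2 K) : x ∈ oddPart (swap K) ↔ x.2 = -x.1 := by
  constructor
  · intro h
    exact congrArg Prod.fst (h : (x.2, x.1) = -x)
  · intro h
    change (x.2, x.1) = -x
    refine Prod.ext h ?_
    change x.1 = -x.2
    rw [h, neg_neg]

/-- Coordinates on the contraction of `sl₂ × sl₂`. -/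
def coords : Contraction (swap K) ≃ₗ[K] (Fin 6 → K) where
  toFun x := ![(x.1 : Sl2 K × Sl2 K).1 0, (x.1 : Sl2 K × Sl2 K).1 1, (x.1 : Sl2 K × Sl2 K).1 2,
    (x.2 : Sl2 K × Sl2 K).1 0, (x.2 : Sl2 K × Sl2 K).1 1, (x.2 : Sl2 K × Sl2 K).1 2]
  invFun c := (⟨(Sl2.mk (c 0) (c 1) (c 2), Sl2.mk (c 0) (c 1) (c 2)), (mem_even K _).2 rfl⟩,
    ⟨(Sl2.mk (c 3) (c 4) (c 5), -Sl2.mk (c 3) (c 4) (c 5)), (mem_odd K _).2 rfl⟩)
  map_add' x y := by
    funext i
    fin_cases i <;> rfl
  map_smul' c x := by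
    funext i
    fin_cases i <;> rfl
  left_inv x := by
    apply Contraction.ext'
    · have h := (mem_even K _).1 x.1.2
      apply Prod.ext
      · apply Sl2.ext3 <;> rfl
      · rw [h]; apply Sl2.ext3 <;> rfl
    · have h := (mem_odd K _).1 x.2.2
      apply Prod.ext
      · apply Sl2.ext3 <;> rfl
      · rw [h]; apply Sl2.ext3 <;> rfl
  right_inv c := by
    funext i
    fin_cases i <;> rfl

/-- The basis `e, h, f, E, H, F` of the contraction of `sl₂ × sl₂`. -/
noncomputable def takiffBasis : Basis (Fin 6) K (Contraction (swap K)) := Basis.ofEquivFun (coords K)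

theorem takiffBasis_table (i j : Fin 6) : ⁅takiffBasis K i, takiffBasis K j⁆ =
    table K (takiffBasis K) i j := by
  have key : ∀ i, takiffBasis K i = (coords K).symm (Pi.single i 1) := by
    intro i
    exact Basis.coe_ofEquivFun (coords K) ▸ rfl
  have k0 : takiffBasis K 0 = (coords K).symm ![1, 0, 0, 0, 0, 0] := by
    rw [key]; congr 1; funext k; fin_cases k <;> rfl
  have k1 : takiffBasis K 1 = (coords K).symm ![0, 1, 0, 0, 0, 0] := by
    rw [key]; congr 1; funext k; fin_cases k <;> rfl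
  have k2 : takiffBasis K 2 = (coords K).symm ![0, 0, 1, 0, 0, 0] := by
    rw [key]; congr 1; funext k; fin_cases k <;> rfl
  have k3 : takiffBasis K 3 = (coords K).symm ![0, 0, 0, 1, 0, 0] := by
    rw [key]; congr 1; funext k; fin_cases k <;> rfl
  have k4 : takiffBasis K 4 = (coords K).symm ![0, 0, 0, 0, 1, 0] := by
    rw [key]; congr 1; funext k; fin_cases k <;> rfl
  have k5 : takiffBasis K 5 = (coords K).symm ![0, 0, 0, 0, 0, 1] := by
    rw [key]; congr 1; funext k; fin_cases k <;> rfl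
  have hbr : ∀ c d : Fin 6 → K, coords K ⁅(coords K).symm c, (coords K).symm d⁆ =
      ![2 * (c 1 * d 0 - c 0 * d 1), c 0 * d 2 - c 2 * d 0, 2 * (c 2 * d 1 - c 1 * d 2),
        2 * (c 1 * d 3 - c 0 * d 4) - 2 * (d 1 * c 3 - d 0 * c 4),
        (c 0 * d 5 - c 2 * d 3) - (d 0 * c 5 - d 2 * c 3),
        2 * (c 2 * d 4 - c 1 * d 5) - 2 * (d 2 * c 4 - d 1 * c 5)] := by
    intro c d
    funext k
    fin_cases k <;> rfl
  apply (coords K).injective
  fin_cases i <;> fin_cases j <;>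
    simp [k0, k1, k2, k3, k4, k5, hbr, table, map_smul, map_neg, map_zero]

end Swap

end Pool.Agent.MP_26edac
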