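import Pool.Agent.Lib.MP_26edac_al.Normal

/-!
# Maximality, transcendence degree and non-polynomiality
-/

namespace Pool.Agent.MP_26edac

open Module MvPolynomial

universe u v

set_option linter.unusedSectionVars false

variable {K : Type u} [Field K] {L : Type v} [LieRing L] [LieAlgebra K L]
  (b : Basis (Fin 6) K L)

variable [IsAlgClosed K] [CharZero K]

/-- After multiplication by a power of `E`, every element of `S(L)` is a polynomial in
`E, C₁, C₂, P, H, h`. -/
theorem psi_surjective (a : SymmetricAlgebra K L) : ∃ n q, vr b 3 ^ n * a = psi b q := by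
  have gen : ∀ i, ∃ n q, vr b 3 ^ n * vr b i = psi b q := by
    have p0 : psi b (X 0) = vr b 3 := by simp [psi]
    have p1 : psi b (X 1) = C1 b := by simp [psi]
    have p2 : psi b (X 2) = C2 b := by simp [psi]
    have p3 : psi b (X 3) = P0 b := by simp [psi]
    have p4 : psi b (X 4) = vr b 4 := by simp [psi]
    have p5 : psi b (X 5) = vr b 1 := by simp [psi]
    have h4 : (4 : K) ≠ 0 := by norm_num
    have h8 : (8 : K) ≠ 0 := by norm_num
    have c4 : psi b (C (4 : K)⁻¹) * 4 = 1 := by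
      have : (C (4 : K)⁻¹ : MvPolynomial (Fin 6) K) * 4 = 1 := by
        rw [show (4 : MvPolynomial (Fin 6) K) = C (4 : K) from (map_ofNat C 4).symm, ← map_mul,
          inv_mul_cancel₀ h4, map_one]
      rw [← map_ofNat (psi b) 4, ← map_mul, this, map_one]
    have c8 : psi b (C (8 : K)⁻¹) * 8 = 1 := by
      have : (C (8 : K)⁻¹ : MvPolynomial (Fin 6) K) * 8 = 1 := by
        rw [show (8 : MvPolynomial (Fin 6) K) = C (8 : K) from (map_ofNat C 8).symm, ← map_mul,
          inv_mul_cancel₀ h8, map_one]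
      rw [← map_ofNat (psi b) 8, ← map_mul, this, map_one]
    intro i
    fin_cases i
    · refine ⟨2, X 3 - X 4 * X 2, ?_⟩
      rw [map_sub, map_mul, p3, p4, p2, P0]
      change vr b 3 ^ 2 * vr b 0 = _
      ring
    · exact ⟨0, X 5, by rw [p5]; simp⟩
    · refine ⟨4, C (8 : K)⁻¹ * (4 * X 0 ^ 3 * (X 2 - X 5 * X 4) -
        2 * (X 3 - X 4 * X 2) * (X 1 - X 4 ^ 2)), ?_⟩
      simp only [map_sub, map_mul, map_pow, p0, p1, p2, p3, p4, p5, map_ofNat]
      rw [P0]
      change vr b 3 ^ 4 * vr b 2 = _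
      have : 8 * (vr b 3 ^ 4 * vr b 2) = (4 * vr b 3 ^ 3 * (C2 b - vr b 1 * vr b 4) -
        2 * (vr b 4 * C2 b + vr b 3 ^ 2 * vr b 0 - vr b 4 * C2 b) * (C1 b - vr b 4 ^ 2)) := by
        rw [C1, C2]; ring
      rw [← this, ← mul_assoc, c8, one_mul]
    · exact ⟨0, X 0, by rw [p0]; simp⟩
    · exact ⟨0, X 4, by rw [p4]; simp⟩
    · refine ⟨1, C (4 : K)⁻¹ * (X 1 - X 4 ^ 2), ?_⟩
      simp only [map_sub, map_mul, map_pow, p1, p4]
      change vr b 3 ^ 1 * vr b 5 = _
      have : 4 * (vr b 3 ^ 1 * vr b 5) = C1 b - vr b 4 ^ 2 := by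
        rw [C1]; ring
      rw [← this, ← mul_assoc, c4, one_mul]
  have pE : psi b (X 0) = vr b 3 := by simp [psi]
  have addc : ∀ a c : SymmetricAlgebra K L, (∃ n q, vr b 3 ^ n * a = psi b q) →
      (∃ n q, vr b 3 ^ n * c = psi b q) → ∃ n q, vr b 3 ^ n * (a + c) = psi b q := by
    rintro a c ⟨n, q, h⟩ ⟨m, r, h'⟩
    refine ⟨n + m, X 0 ^ m * q + X 0 ^ n * r, ?_⟩
    rw [map_add, map_mul, map_mul, map_pow, map_pow, pE, ← h, ← h']
    ring
  induction a using SymmetricAlgebra.induction with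
  | algebraMap r => exact ⟨0, C r, by rw [← MvPolynomial.algebraMap_eq, AlgHom.commutes]; simp⟩
  | ι x =>
    have hx : x = ∑ i, b.repr x i • b i := (b.sum_repr x).symm
    rw [hx, map_sum]
    apply Finset.sum_induction _ (fun a => ∃ n q, vr b 3 ^ n * a = psi b q) addc
    · exact ⟨0, 0, by simp⟩
    · intro i _
      obtain ⟨n, q, h⟩ := gen i
      refine ⟨n, C (b.repr x i) * q, ?_⟩
      rw [map_smul, map_mul, ← h, ← MvPolynomial.algebraMap_eq, AlgHom.commutes,
        Algebra.smul_def]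
      ring
  | mul a c ha hc =>
    obtain ⟨n, q, h⟩ := ha
    obtain ⟨m, r, h'⟩ := hc
    refine ⟨n + m, q * r, ?_⟩
    rw [map_mul, ← h, ← h']
    ring
  | add a c ha hc => exact addc a c ha hc

section Centralizer

variable (hb : ∀ i j, ⁅b i, b j⁆ = table K b i j)

include hb

/-- An element which commutes with `E` and `P` lies in `alg b`. -/
theorem centralizer (a : SymmetricAlgebra K L) (hE : poisson K L (vr b 3) a = 0)
    (hP : poisson K L (P0 b) a = 0) : a ∈ alg b := by
  obtain ⟨n, q, hq⟩ := psi_surjective b a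
  have hv := poisson_vr b hb
  have hE3 : vr b 3 ≠ 0 := vr3_ne_zero b
  have two_ne : (2 : SymmetricAlgebra K L) ≠ 0 := by
    intro h0
    have := congrArg (evp b (fun _ => 0)) h0
    rw [map_ofNat, map_zero] at this
    exact two_ne_zero this
  have hPE : poisson K L (P0 b) (vr b 3) = 0 := by
    rw [poisson_skew, poisson_E_P0 b hb, neg_zero]
  have hPH : poisson K L (P0 b) (vr b 4) = -(2 * vr b 3 ^ 3) := by
    rw [poisson_skew]
    simp [P0, Derivation.leibniz, Derivation.leibniz_pow, hv, poisson_right_C2 b hb]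
    ring
  have h1 : poisson K L (vr b 3) (psi b q) = 0 := by
    rw [← hq, Derivation.leibniz, Derivation.leibniz_pow, hE, poisson_self]
    simp
  have h2 : poisson K L (P0 b) (psi b q) = 0 := by
    rw [← hq, Derivation.leibniz, Derivation.leibniz_pow, hP, hPE]
    simp
  have q5 : pderiv 5 q = 0 := by
    apply psi_injective b
    rw [psi, derivation_aeval, Fin.sum_univ_six] at h1
    have e0 : poisson K L (vr b 3) (![vr b 3, C1 b, C2 b, P0 b, vr b 4, vr b 1] 0) = 0 :=
      poisson_self _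
    have e1 : poisson K L (vr b 3) (![vr b 3, C1 b, C2 b, P0 b, vr b 4, vr b 1] 1) = 0 :=
      poisson_right_C1 b hb _
    have e2 : poisson K L (vr b 3) (![vr b 3, C1 b, C2 b, P0 b, vr b 4, vr b 1] 2) = 0 :=
      poisson_right_C2 b hb _
    have e3 : poisson K L (vr b 3) (![vr b 3, C1 b, C2 b, P0 b, vr b 4, vr b 1] 3) = 0 :=
      poisson_E_P0 b hb
    have e4 : poisson K L (vr b 3) (![vr b 3, C1 b, C2 b, P0 b, vr b 4, vr b 1] 4) = 0 :=
      hv 3 4
    have e5 : poisson K L (vr b 3) (![vr b 3, C1 b, C2 b, P0 b, vr b 4, vr b 1] 5) =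
      -2 * vr b 3 := hv 3 1
    rw [e0, e1, e2, e3, e4, e5] at h1
    simp only [mul_zero, zero_add, add_zero] at h1
    exact (mul_eq_zero.1 h1).resolve_right (mul_ne_zero (neg_ne_zero.2 two_ne) hE3)
  have q4 : pderiv 4 q = 0 := by
    apply psi_injective b
    rw [psi, derivation_aeval, Fin.sum_univ_six, q5] at h2
    have e0 : poisson K L (P0 b) (![vr b 3, C1 b, C2 b, P0 b, vr b 4, vr b 1] 0) = 0 := hPE
    have e1 : poisson K L (P0 b) (![vr b 3, C1 b, C2 b, P0 b, vr b 4, vr b 1] 1) = 0 :=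
      poisson_right_C1 b hb _
    have e2 : poisson K L (P0 b) (![vr b 3, C1 b, C2 b, P0 b, vr b 4, vr b 1] 2) = 0 :=
      poisson_right_C2 b hb _
    have e3 : poisson K L (P0 b) (![vr b 3, C1 b, C2 b, P0 b, vr b 4, vr b 1] 3) = 0 :=
      poisson_self _
    have e4 : poisson K L (P0 b) (![vr b 3, C1 b, C2 b, P0 b, vr b 4, vr b 1] 4) =
      -(2 * vr b 3 ^ 3) := hPH
    rw [e0, e1, e2, e3, e4] at h2
    simp only [mul_zero, zero_add, add_zero, map_zero, zero_mul] at h2
    exact (mul_eq_zero.1 h2).resolve_right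
      (neg_ne_zero.2 (mul_ne_zero two_ne (pow_ne_zero 3 hE3)))
  apply saturated_pow b n
  rw [hq]
  have hq' : aeval (![X 0, X 1, X 2, X 3, 0, 0] : Fin 6 → MvPolynomial (Fin 6) K) q = q := by
    have a5 := eq_aeval_update_of_pderiv_eq_zero 5 q q5
    have a4 := eq_aeval_update_of_pderiv_eq_zero 4 q q4
    have : (aeval (![X 0, X 1, X 2, X 3, 0, 0] : Fin 6 → MvPolynomial (Fin 6) K) :
        MvPolynomial (Fin 6) K →ₐ[K] MvPolynomial (Fin 6) K) =
        (aeval (Function.update (X : Fin 6 → MvPolynomial (Fin 6) K) 4 0)).comp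
        (aeval (Function.update (X : Fin 6 → MvPolynomial (Fin 6) K) 5 0)) := by
      apply MvPolynomial.algHom_ext
      intro i
      fin_cases i <;> simp [Function.update]
    rw [this, AlgHom.comp_apply, a5, a4]
  rw [← hq', psi, ← AlgHom.comp_apply]
  have hcomp : ((aeval ![vr b 3, C1 b, C2 b, P0 b, vr b 4, vr b 1] :
      MvPolynomial (Fin 6) K →ₐ[K] SymmetricAlgebra K L).comp
      (aeval (![X 0, X 1, X 2, X 3, 0, 0] : Fin 6 → MvPolynomial (Fin 6) K))) =
      aeval ![vr b 3, C1 b, C2 b, P0 b, 0, 0] := by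
    apply MvPolynomial.algHom_ext
    intro i
    fin_cases i <;> simp
  rw [hcomp]
  have hr : (aeval ![vr b 3, C1 b, C2 b, P0 b, 0, 0] :
      MvPolynomial (Fin 6) K →ₐ[K] SymmetricAlgebra K L).range ≤ alg b := by
    rw [← Algebra.adjoin_range_eq_range_aeval, Algebra.adjoin_le_iff]
    rintro _ ⟨i, rfl⟩
    fin_cases i
    · exact Algebra.subset_adjoin (by simp [gens])
    · exact Algebra.subset_adjoin (by simp [gens])
    · exact Algebra.subset_adjoin (by simp [gens])
    · exact Algebra.subset_adjoin (by simp [gens])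
    · exact zero_mem (alg b)
    · exact zero_mem (alg b)
  exact hr ⟨q, rfl⟩

/-- `alg b` is maximal commutative. -/
theorem alg_maximal : IsMaximalPoissonCommutative (alg b) := by
  refine ⟨alg_commutative b hb, ?_⟩
  intro B hB hle
  apply le_antisymm hle
  intro a ha
  apply centralizer b hb
  · exact hB _ (hle (Algebra.subset_adjoin (by simp [gens]))) _ ha
  · exact hB _ (hle (Algebra.subset_adjoin (by simp [gens]))) _ ha

end Centralizer

end Pool.Agent.MP_26edac
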