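import Pool.Agent.Lib.MP_26edac_al.Maximal

/-!
# Transcendence degree and non-polynomiality
-/

namespace Pool.Agent.MP_26edac

open Module MvPolynomial

universe u v

set_option linter.unusedSectionVars false

variable {K : Type u} [Field K] {L : Type v} [LieRing L] [LieAlgebra K L]
  (b : Basis (Fin 6) K L)

variable [IsAlgClosed K] [CharZero K]

theorem phi_mem (q : MvPolynomial (Fin 4) K) : phi b q ∈ alg b :=
  (mem_alg_iff b _).2 ⟨q, 0, by rw [map_zero, mul_zero, add_zero]⟩

theorem P0_mem : P0 b ∈ alg b := Algebra.subset_adjoin (by simp [gens])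

/-- The elements `E, C₁, C₂, G` of `alg b`. -/
noncomputable def tb (i : Fin 4) : alg b := ⟨phi b (X i), phi_mem b _⟩

theorem tb_independent : AlgebraicIndependent K (tb b) := by
  rw [← AlgHom.algebraicIndependent_iff (alg b).val Subtype.val_injective]
  have : ((alg b).val ∘ tb b) = ![vr b 3, C1 b, C2 b, G0 b] := by
    funext i
    fin_cases i
    · exact phi_X0 b
    · exact phi_X1 b
    · exact phi_X2 b
    · exact phi_X3 b
  rw [this]
  exact phi_injective b

theorem tb_basis : IsTranscendenceBasis K (tb b) := by
  rw [isTranscendenceBasis_iff_algebraicIndependent_isAlgebraic]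
  refine ⟨tb_independent b, ⟨?_⟩⟩
  have hphi : ∀ q, (⟨phi b q, phi_mem b q⟩ : alg b) ∈ Algebra.adjoin K (Set.range (tb b)) := by
    intro q
    rw [Algebra.adjoin_range_eq_range_aeval]
    refine ⟨q, ?_⟩
    apply Subtype.ext
    change (alg b).val (aeval (tb b) q) = phi b q
    rw [← AlgHom.comp_apply]
    congr 1
    apply MvPolynomial.algHom_ext
    intro i
    simp [tb]
  have hint : ∀ q, IsIntegral (Algebra.adjoin K (Set.range (tb b)))
      (⟨phi b q, phi_mem b q⟩ : alg b) := by
    intro q
    exact isIntegral_algebraMap
      (x := (⟨⟨phi b q, phi_mem b q⟩, hphi q⟩ : Algebra.adjoin K (Set.range (tb b))))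
  have hP : IsIntegral (Algebra.adjoin K (Set.range (tb b))) (⟨P0 b, P0_mem b⟩ : alg b) := by
    apply IsIntegral.of_pow two_pos
    convert hint (X 1 * X 2 ^ 2 + X 0 * X 3) using 1
    apply Subtype.ext
    change P0 b ^ 2 = phi b _
    simp only [map_add, map_mul, map_pow, phi_X0, phi_X1, phi_X2, phi_X3]
    exact relation b
  rintro ⟨a, ha⟩
  obtain ⟨u, v, rfl⟩ := (mem_alg_iff b a).1 ha
  exact ((hint u).add (hP.mul (hint v))).isAlgebraic

/-- The transcendence degree of `alg b` is four. -/
theorem trdeg_alg : Algebra.trdeg K (alg b) = 4 := by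
  have := (tb_basis b).lift_cardinalMk_eq_trdeg
  simpa using this.symm

section Cotangent

/-- The linear parts at the origin of a pair `(u, v)`. -/
noncomputable def lin (u v : MvPolynomial (Fin 4) K) : Fin 5 → K :=
  ![constantCoeff (pderiv 0 u), constantCoeff (pderiv 1 u), constantCoeff (pderiv 2 u),
    constantCoeff (pderiv 3 u), constantCoeff v]

theorem lin_add (u v u' v' : MvPolynomial (Fin 4) K) :
    lin (u + u') (v + v') = lin u v + lin u' v' := by
  funext i
  fin_cases i <;> simp [lin]

theorem lin_mul (u v u' v' : MvPolynomial (Fin 4) K) :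
    lin (u * u' + v * v' * (X 1 * X 2 ^ 2 + X 0 * X 3)) (u * v' + u' * v) =
      constantCoeff u • lin u' v' + constantCoeff u' • lin u v := by
  funext i
  fin_cases i
  all_goals
    simp [lin, Derivation.leibniz, Derivation.leibniz_pow, pderiv_X]
    try ring

open Classical in
/-- The linear part at the origin of an element of `alg b` with respect to the five generators. -/
noncomputable def lam (a : SymmetricAlgebra K L) : Fin 5 → K :=
  if h : ∃ uv : MvPolynomial (Fin 4) K × MvPolynomial (Fin 4) K,
    a = phi b uv.1 + P0 b * phi b uv.2 then lin h.choose.1 h.choose.2 else 0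

theorem lam_eq (u v : MvPolynomial (Fin 4) K) : lam b (phi b u + P0 b * phi b v) = lin u v := by
  have h : ∃ uv : MvPolynomial (Fin 4) K × MvPolynomial (Fin 4) K,
    phi b u + P0 b * phi b v = phi b uv.1 + P0 b * phi b uv.2 := ⟨(u, v), rfl⟩
  rw [lam, dif_pos h]
  have := h.choose_spec
  have h2 := normal_unique b (u - h.choose.1) (v - h.choose.2) (by
    rw [map_sub, map_sub]
    linear_combination this)
  rw [← sub_eq_zero.1 h2.1, ← sub_eq_zero.1 h2.2]

theorem not_polynomial : ¬ IsPolynomialSubalgebra (alg b) := by
  rintro ⟨s, hs, hadj⟩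
  have hmem : ∀ y ∈ s, y ∈ alg b := by
    intro y hy
    rw [← hadj]
    exact Algebra.subset_adjoin hy
  let y : s → alg b := fun z => ⟨z.1, hmem z.1 z.2⟩
  have hy : AlgebraicIndependent K y := by
    rw [← AlgHom.algebraicIndependent_iff (alg b).val Subtype.val_injective]
    exact hs
  have htop : Algebra.adjoin K (Set.range y) = ⊤ := by
    have h1 : (Algebra.adjoin K (Set.range y)).map (alg b).val = (⊤ : Subalgebra K (alg b)).map
        (alg b).val := by
      rw [AlgHom.map_adjoin, Algebra.map_top, Subalgebra.range_val, ← Set.range_comp]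
      have h2 : Set.range ((alg b).val ∘ y) = s := by
        ext z
        constructor
        · rintro ⟨w, rfl⟩
          exact w.2
        · intro hz
          exact ⟨⟨z, hz⟩, rfl⟩
      rw [h2, hadj]
    exact Subalgebra.map_injective Subtype.val_injective h1
  have hbasis : IsTranscendenceBasis K y := by
    rw [isTranscendenceBasis_iff_algebraicIndependent_isAlgebraic]
    refine ⟨hy, ?_⟩
    rw [htop]
    exact ⟨fun x => isAlgebraic_algebraMap (⟨x, Algebra.mem_top⟩ : (⊤ : Subalgebra K (alg b)))⟩
  have hcard : Cardinal.mk s = 4 := by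
    have h1 := hbasis.lift_cardinalMk_eq_trdeg
    rw [trdeg_alg] at h1
    simpa using h1
  -- the span of the linear parts of the elements of `s`
  let W : Submodule K (Fin 5 → K) := Submodule.span K (Set.range fun z : s => lam b z.1)
  have hW : ∀ a ∈ alg b, lam b a ∈ W := by
    intro a ha
    rw [← hadj] at ha
    induction ha using Algebra.adjoin_induction with
    | mem z hz => exact Submodule.subset_span ⟨⟨z, hz⟩, rfl⟩
    | algebraMap r =>
      have h1 : algebraMap K (SymmetricAlgebra K L) r = phi b (C r) + P0 b * phi b 0 := by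
        rw [map_zero, ← MvPolynomial.algebraMap_eq, AlgHom.commutes]
        ring
      rw [h1, lam_eq]
      have h2 : lin (C r : MvPolynomial (Fin 4) K) 0 = 0 := by
        funext i
        fin_cases i <;> simp [lin]
      rw [h2]
      exact zero_mem W
    | add a c ha hc iha ihc =>
      rw [hadj] at ha hc
      obtain ⟨u, v, rfl⟩ := (mem_alg_iff b a).1 ha
      obtain ⟨u', v', rfl⟩ := (mem_alg_iff b c).1 hc
      rw [lam_eq] at iha ihc
      have h1 : phi b u + P0 b * phi b v + (phi b u' + P0 b * phi b v') =
          phi b (u + u') + P0 b * phi b (v + v') := by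
        rw [map_add, map_add]; ring
      rw [h1, lam_eq, lin_add]
      exact add_mem iha ihc
    | mul a c ha hc iha ihc =>
      rw [hadj] at ha hc
      obtain ⟨u, v, rfl⟩ := (mem_alg_iff b a).1 ha
      obtain ⟨u', v', rfl⟩ := (mem_alg_iff b c).1 hc
      rw [lam_eq] at iha ihc
      have h1 : (phi b u + P0 b * phi b v) * (phi b u' + P0 b * phi b v') =
          phi b (u * u' + v * v' * (X 1 * X 2 ^ 2 + X 0 * X 3)) +
            P0 b * phi b (u * v' + u' * v) := by
        simp only [map_add, map_mul, map_pow, phi_X0, phi_X1, phi_X2, phi_X3]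
        linear_combination (phi b v * phi b v') * relation b
      rw [h1, lam_eq, lin_mul]
      exact add_mem (W.smul_mem _ ihc) (W.smul_mem _ iha)
  have hWtop : W = ⊤ := by
    rw [eq_top_iff]
    have hu : ∀ i : Fin 5, (Pi.single i (1 : K) : Fin 5 → K) ∈ W := by
      intro i
      have hX : ∀ j : Fin 4, lin (X j : MvPolynomial (Fin 4) K) 0 ∈ W := by
        intro j
        have := hW _ (phi_mem b (X j))
        rwa [show phi b (X j) = phi b (X j) + P0 b * phi b 0 by
          rw [map_zero, mul_zero, add_zero], lam_eq] at this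
      have hP : lin (0 : MvPolynomial (Fin 4) K) 1 ∈ W := by
        have := hW _ (P0_mem b)
        rwa [show P0 b = phi b 0 + P0 b * phi b 1 by
          rw [map_zero, map_one, mul_one, zero_add], lam_eq] at this
      fin_cases i
      · convert hX 0 using 1
        funext i
        fin_cases i <;> simp [lin, pderiv_X]
      · convert hX 1 using 1
        funext i
        fin_cases i <;> simp [lin, pderiv_X]
      · convert hX 2 using 1
        funext i
        fin_cases i <;> simp [lin, pderiv_X]
      · convert hX 3 using 1
        funext i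
        fin_cases i <;> simp [lin, pderiv_X]
      · convert hP using 1
        funext i
        fin_cases i <;> simp [lin]
    intro w _
    have : w = ∑ i, w i • (Pi.single i (1 : K) : Fin 5 → K) := by
      funext j
      simp [Finset.sum_apply, Pi.single_apply]
    rw [this]
    exact Submodule.sum_mem _ fun i _ => W.smul_mem _ (hu i)
  have hfin : Cardinal.mk s < Cardinal.aleph0 := by
    rw [hcard]
    exact Cardinal.natCast_lt_aleph0 (n := 4)
  have : Finite s := Cardinal.lt_aleph0_iff_finite.1 hfin
  have : Fintype s := Fintype.ofFinite s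
  have hc : Fintype.card s = 4 := by
    rw [Cardinal.mk_fintype] at hcard
    exact_mod_cast hcard
  have hrank := finrank_range_le_card (R := K) (fun z : s => lam b z.1)
  rw [hc] at hrank
  have : finrank K W = 5 := by
    rw [hWtop, finrank_top, finrank_fin_fun]
  change finrank K W ≤ 4 at hrank
  omega

end Cotangent

end Pool.Agent.MP_26edac
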