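import Pool.Agent.Lib.MP_26edac_al.TakiffMain

/-!
# Normal forms in the maximal commutative subalgebra, saturation and maximality
-/

namespace Pool.Agent.MP_26edac

open Module MvPolynomial

universe u v

set_option linter.unusedSectionVars false

variable {K : Type u} [Field K] {L : Type v} [LieRing L] [LieAlgebra K L]
  (b : Basis (Fin 6) K L)

section NormalForm

variable [IsAlgClosed K] [CharZero K]

theorem vr3_ne_zero : vr b 3 ≠ 0 := by
  intro h0
  have := congrArg (evp b (fun _ => 1)) h0
  simp at this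

/-- Every point `x` with `x₀ ≠ 0` and every square root `p` of `x₁ x₂² + x₀ x₃` come from a point
of `L^*` at which `E, C₁, C₂, G` take the values `x` and `P` takes the value `p`. -/
theorem exists_point (x : Fin 4 → K) (hx : x 0 ≠ 0) (p : K)
    (hp : p ^ 2 = x 1 * x 2 ^ 2 + x 0 * x 3) :
    ∃ c : Fin 6 → K, (∀ q, evp b c (phi b q) = eval x q) ∧ evp b c (P0 b) = p := by
  set F : K := x 1 / (4 * x 0) with hF
  set e : K := p / x 0 ^ 2 with he
  set f : K := (x 2 - 2 * e * F) / (2 * x 0) with hf
  have h2 : (2 : K) ≠ 0 := two_ne_zero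
  have h4 : (4 : K) ≠ 0 := by norm_num
  have e1 : evp b ![e, 0, f, x 0, 0, F] (C1 b) = x 1 := by
    rw [evp_C1]
    change 0 ^ 2 + 4 * x 0 * F = x 1
    rw [hF]
    field_simp
    ring
  have e2 : evp b ![e, 0, f, x 0, 0, F] (C2 b) = x 2 := by
    rw [evp_C2]
    change 0 * 0 + 2 * e * F + 2 * f * x 0 = x 2
    rw [hf]
    field_simp
    ring
  have e3 : evp b ![e, 0, f, x 0, 0, F] (P0 b) = p := by
    rw [P0, map_add, map_mul, map_mul, map_pow, e2, evp_vr, evp_vr, evp_vr]
    change 0 * x 2 + x 0 ^ 2 * e = p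
    rw [he]
    field_simp
    ring
  have e0 : evp b ![e, 0, f, x 0, 0, F] (vr b 3) = x 0 := by
    rw [evp_vr]; rfl
  have e4 : evp b ![e, 0, f, x 0, 0, F] (G0 b) = x 3 := by
    have := congrArg (evp b ![e, 0, f, x 0, 0, F]) (relation b)
    rw [map_add, map_pow, map_mul, map_mul, map_pow, e0, e1, e2, e3, hp] at this
    have h := add_left_cancel this
    exact (mul_left_cancel₀ hx h).symm
  refine ⟨_, ?_, e3⟩
  intro q
  rw [phi, evp_aeval]
  congr 1
  congr 1
  funext i
  fin_cases i
  · exact e0
  · exact e1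
  · exact e2
  · exact e4

/-- Uniqueness of the normal form `Φ(u) + P Φ(v)`. -/
theorem normal_unique (u v : MvPolynomial (Fin 4) K) (h : phi b u + P0 b * phi b v = 0) :
    u = 0 ∧ v = 0 := by
  have key : ∀ x : Fin 4 → K, x 0 ≠ 0 → eval x u = 0 ∧
      (x 1 * x 2 ^ 2 + x 0 * x 3) * eval x v = 0 := by
    intro x hx
    obtain ⟨p, hp⟩ := IsAlgClosed.exists_pow_nat_eq (x 1 * x 2 ^ 2 + x 0 * x 3) two_pos
    obtain ⟨c, hc, hcP⟩ := exists_point b x hx p hp
    obtain ⟨c', hc', hcP'⟩ := exists_point b x hx (-p) (by rw [neg_sq, hp])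
    have h1 := congrArg (evp b c) h
    have h2 := congrArg (evp b c') h
    rw [map_add, map_mul, hc, hc, hcP, map_zero] at h1
    rw [map_add, map_mul, hc', hc', hcP', map_zero] at h2
    have h3 : (2 : K) * eval x u = 0 := by linear_combination h1 + h2
    have h4 : eval x u = 0 := (mul_eq_zero.1 h3).resolve_left two_ne_zero
    refine ⟨h4, ?_⟩
    rw [h4, zero_add] at h1
    rw [← hp, pow_two, mul_assoc, h1, mul_zero]
  constructor
  · apply eq_zero_of_generic u (X 0) (X_ne_zero 0)
    intro x hx
    rw [eval_X] at hx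
    exact (key x hx).1
  · apply eq_zero_of_generic v (X 0 * (X 1 * X 2 ^ 2 + X 0 * X 3))
    · intro h0
      have := congrArg (eval (![1, 0, 0, 1] : Fin 4 → K)) h0
      simp at this
    · intro x hx
      simp only [map_mul, map_add, map_pow, eval_X] at hx
      have hx0 : x 0 ≠ 0 := left_ne_zero_of_mul hx
      exact (mul_eq_zero.1 (key x hx0).2).resolve_left (right_ne_zero_of_mul hx)

/-- `Φ` is injective: `E, C₁, C₂, G` are algebraically independent. -/
theorem phi_injective : Function.Injective (phi b) := by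
  rw [injective_iff_map_eq_zero]
  intro u hu
  exact (normal_unique b u 0 (by rw [hu, map_zero, mul_zero, add_zero])).1

theorem phi_X0 : phi b (X 0) = vr b 3 := by simp [phi]
theorem phi_X1 : phi b (X 1) = C1 b := by simp [phi]
theorem phi_X2 : phi b (X 2) = C2 b := by simp [phi]
theorem phi_X3 : phi b (X 3) = G0 b := by simp [phi]

/-- Existence of the normal form. -/
theorem mem_alg_iff (a : SymmetricAlgebra K L) :
    a ∈ alg b ↔ ∃ u v, a = phi b u + P0 b * phi b v := by
  constructor
  · intro ha
    induction ha using Algebra.adjoin_induction with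
    | mem y hy =>
      simp only [gens, Set.mem_insert_iff, Set.mem_singleton_iff] at hy
      rcases hy with hy | hy | hy | hy | hy <;> subst hy
      · exact ⟨X 0, 0, by rw [phi_X0, map_zero]; ring⟩
      · exact ⟨X 1, 0, by rw [phi_X1, map_zero]; ring⟩
      · exact ⟨X 2, 0, by rw [phi_X2, map_zero]; ring⟩
      · exact ⟨0, 1, by rw [map_one, map_zero]; ring⟩
      · exact ⟨X 3, 0, by rw [phi_X3, map_zero]; ring⟩
    | algebraMap r =>
      refine ⟨C r, 0, ?_⟩
      rw [map_zero, ← MvPolynomial.algebraMap_eq, AlgHom.commutes]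
      ring
    | add a c _ _ ha hc =>
      obtain ⟨u, v, rfl⟩ := ha
      obtain ⟨u', v', rfl⟩ := hc
      exact ⟨u + u', v + v', by rw [map_add, map_add]; ring⟩
    | mul a c _ _ ha hc =>
      obtain ⟨u, v, rfl⟩ := ha
      obtain ⟨u', v', rfl⟩ := hc
      refine ⟨u * u' + v * v' * (X 1 * X 2 ^ 2 + X 0 * X 3), u * v' + u' * v, ?_⟩
      simp only [map_add, map_mul, map_pow, phi_X0, phi_X1, phi_X2, phi_X3]
      linear_combination (phi b v * phi b v') * relation b
  · rintro ⟨u, v, rfl⟩
    have hphi : ∀ q, phi b q ∈ alg b := by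
      intro q
      have : (phi b).range ≤ alg b := by
        rw [phi, ← Algebra.adjoin_range_eq_range_aeval]
        apply Algebra.adjoin_mono
        rintro _ ⟨i, rfl⟩
        fin_cases i <;> simp [gens]
      exact this ⟨q, rfl⟩
    exact add_mem (hphi u) (mul_mem (Algebra.subset_adjoin (by simp [gens])) (hphi v))

/-- If a polynomial vanishes for `x₀ = 0` (generically) then it is divisible by `x₀`. -/
theorem X0_dvd (u : MvPolynomial (Fin 4) K)
    (h : ∀ x : Fin 4 → K, x 0 = 0 → x 1 ≠ 0 → x 2 ≠ 0 → x 3 ≠ 0 → eval x u = 0) :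
    X 0 ∣ u := by
  have h0 : aeval (Function.update (X : Fin 4 → MvPolynomial (Fin 4) K) 0 0) u = 0 := by
    apply eq_zero_of_generic _ (X 1 * X 2 * X 3)
    · exact mul_ne_zero (mul_ne_zero (X_ne_zero 1) (X_ne_zero 2)) (X_ne_zero 3)
    · intro x hx
      simp only [map_mul, eval_X] at hx
      have hx3 := right_ne_zero_of_mul hx
      have hx2 := right_ne_zero_of_mul (left_ne_zero_of_mul hx)
      have hx1 := left_ne_zero_of_mul (left_ne_zero_of_mul hx)
      have : (eval x).comp (aeval (Function.update (X : Fin 4 → MvPolynomial (Fin 4) K) 0 0) :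
          MvPolynomial (Fin 4) K →ₐ[K] MvPolynomial (Fin 4) K).toRingHom =
          eval (Function.update x 0 0) := by
        apply MvPolynomial.ringHom_ext
        · intro r; simp
        · intro j
          by_cases hj : j = 0
          · subst hj; simp
          · simp [hj]
      have h' := RingHom.congr_fun this u
      change eval x (aeval (Function.update (X : Fin 4 → MvPolynomial (Fin 4) K) 0 0) u) = _ at h'
      rw [h']
      exact h _ (by simp) (by simpa using hx1) (by simpa using hx2) (by simpa using hx3)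
  have := X_dvd_sub (0 : Fin 4) u
  rwa [h0, sub_zero] at this

/-- Saturation: if `E a ∈ alg b` then `a ∈ alg b`. -/
theorem saturated (a : SymmetricAlgebra K L) (ha : vr b 3 * a ∈ alg b) : a ∈ alg b := by
  rw [mem_alg_iff] at ha
  obtain ⟨u, v, huv⟩ := ha
  have h2 : (2 : K) ≠ 0 := two_ne_zero
  have h4 : (4 : K) ≠ 0 := by norm_num
  have key : ∀ x : Fin 4 → K, x 0 = 0 → x 1 ≠ 0 → x 2 ≠ 0 → x 3 ≠ 0 →
      eval x u = 0 ∧ eval x v = 0 := by
    intro x hx0 hx1 hx2 hx3
    obtain ⟨H, hH⟩ := IsAlgClosed.exists_pow_nat_eq (x 1) two_pos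
    have hH0 : H ≠ 0 := by
      rintro rfl
      apply hx1
      rw [← hH]; ring
    have main : ∀ H' : K, H' ^ 2 = x 1 → eval x u + H' * x 2 * eval x v = 0 := by
      intro H' hH'
      set F : K := -x 3 / (4 * x 2 ^ 2) with hF
      have hF0 : F ≠ 0 := by
        rw [hF]
        exact div_ne_zero (neg_ne_zero.2 hx3) (mul_ne_zero h4 (pow_ne_zero 2 hx2))
      set e : K := x 2 / (2 * F) with he
      have e0 : evp b ![e, 0, 0, 0, H', F] (vr b 3) = 0 := by
        rw [evp_vr]; rfl
      have e1 : evp b ![e, 0, 0, 0, H', F] (C1 b) = x 1 := by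
        rw [evp_C1]
        change H' ^ 2 + 4 * 0 * F = x 1
        rw [hH']
        ring
      have e2 : evp b ![e, 0, 0, 0, H', F] (C2 b) = x 2 := by
        rw [evp_C2]
        change 0 * H' + 2 * e * F + 2 * 0 * 0 = x 2
        rw [he]
        field_simp
        ring
      have e3 : evp b ![e, 0, 0, 0, H', F] (P0 b) = H' * x 2 := by
        rw [P0, map_add, map_mul, map_mul, map_pow, e2, e0, evp_vr, evp_vr]
        change H' * x 2 + 0 ^ 2 * e = H' * x 2
        ring
      have e4 : evp b ![e, 0, 0, 0, H', F] (G0 b) = x 3 := by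
        rw [G0, map_sub, map_add, map_mul, map_mul, map_mul, map_mul, map_mul, map_mul, map_mul,
          map_pow, map_pow, map_pow, e0, e2, evp_vr, evp_vr, evp_vr, map_ofNat, map_ofNat]
        change 2 * 0 * H' * e * x 2 + 0 ^ 3 * e ^ 2 - 4 * F * x 2 ^ 2 = x 3
        rw [hF]
        field_simp
        ring
      have hphi : ∀ q, evp b ![e, 0, 0, 0, H', F] (phi b q) = eval x q := by
        intro q
        rw [phi, evp_aeval]
        congr 1
        congr 1
        funext i
        fin_cases i
        · exact e0.trans hx0.symm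
        · exact e1
        · exact e2
        · exact e4
      have := congrArg (evp b ![e, 0, 0, 0, H', F]) huv
      rw [map_mul, e0, zero_mul, map_add, map_mul, hphi, hphi, e3] at this
      exact this.symm
    have m1 := main H hH
    have m2 := main (-H) (by rw [neg_sq, hH])
    have h3 : (2 : K) * eval x u = 0 := by linear_combination m1 + m2
    have h5 : eval x u = 0 := (mul_eq_zero.1 h3).resolve_left h2
    refine ⟨h5, ?_⟩
    rw [h5, zero_add] at m1
    exact (mul_eq_zero.1 m1).resolve_left (mul_ne_zero hH0 hx2)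
  obtain ⟨u', rfl⟩ := X0_dvd u (fun x h0 h1 h2 h3 => (key x h0 h1 h2 h3).1)
  obtain ⟨v', rfl⟩ := X0_dvd v (fun x h0 h1 h2 h3 => (key x h0 h1 h2 h3).2)
  rw [mem_alg_iff]
  refine ⟨u', v', ?_⟩
  apply mul_left_cancel₀ (vr3_ne_zero b)
  rw [huv, map_mul, map_mul, phi_X0]
  ring

theorem saturated_pow (n : ℕ) (a : SymmetricAlgebra K L) (ha : vr b 3 ^ n * a ∈ alg b) :
    a ∈ alg b := by
  induction n with
  | zero => simpa using ha
  | succ n ih =>
    apply ih
    apply saturated
    rw [pow_succ] at ha
    convert ha using 1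
    ring

end NormalForm

end Pool.Agent.MP_26edac
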