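import Pool.Agent.Lib.MP_26edac_al.Defs

/-!
# Skew symmetry and the Jacobi identity for the Lie-Poisson bracket
-/

namespace Pool.Agent.MP_26edac

universe u v

variable {K : Type u} [CommRing K] {L : Type v} [LieRing L] [LieAlgebra K L]

/-- The Lie-Poisson bracket is skew-symmetric. -/
theorem poisson_skew (a b : SymmetricAlgebra K L) : poisson K L a b = -poisson K L b a := by
  induction a using SymmetricAlgebra.induction with
  | algebraMap r => simp
  | ι x =>
    induction b using SymmetricAlgebra.induction with
    | algebraMap r => simp
    | ι y => rw [poisson_ι_ι, poisson_ι_ι, ← lie_skew, map_neg]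
    | mul a b ha hb =>
      rw [Derivation.leibniz, Derivation.leibniz, Derivation.add_apply, Derivation.smul_apply,
        Derivation.smul_apply, ha, hb]
      simp only [smul_eq_mul]
      ring
    | add a b ha hb => simp only [map_add, Derivation.add_apply, ha, hb]; ring
  | mul a c ha hc =>
      rw [Derivation.leibniz, Derivation.leibniz, Derivation.add_apply, Derivation.smul_apply,
        Derivation.smul_apply, ha, hc]
      simp only [smul_eq_mul]
      ring
  | add a c ha hc => simp only [map_add, Derivation.add_apply, ha, hc]; ring

/-- The Lie-Poisson bracket satisfies the Jacobi identity. -/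
theorem poisson_jacobi (a b c : SymmetricAlgebra K L) :
    poisson K L a (poisson K L b c) =
      poisson K L (poisson K L a b) c + poisson K L b (poisson K L a c) := by
  induction a using SymmetricAlgebra.induction with
  | algebraMap r => simp
  | ι x =>
    induction b using SymmetricAlgebra.induction with
    | algebraMap r => simp
    | ι y =>
      induction c using SymmetricAlgebra.induction with
      | algebraMap r => simp
      | ι z => simp only [poisson_ι_ι, ← map_add, ← leibniz_lie]
      | mul c d hc hd =>
        simp only [Derivation.leibniz, map_add, Derivation.add_apply, Derivation.smul_apply,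
          smul_eq_mul, hc, hd]
        ring
      | add c d hc hd => simp only [map_add, hc, hd]; ring
    | mul b d hb hd =>
      simp only [Derivation.leibniz, map_add, Derivation.add_apply, Derivation.smul_apply,
        smul_eq_mul, hb, hd]
      ring
    | add b d hb hd => simp only [map_add, Derivation.add_apply, hb, hd]; ring
  | mul a d ha hd =>
    simp only [Derivation.leibniz, map_add, Derivation.add_apply, Derivation.smul_apply,
      smul_eq_mul, ha, hd]
    rw [poisson_skew b a, poisson_skew b d]
    ring
  | add a d ha hd => simp only [map_add, Derivation.add_apply, ha, hd]; ring

end Pool.Agent.MP_26edac
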