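import Mathlib

/-!
# Auxiliary facts on multivariate polynomials
-/

namespace Pool.Agent.MP_26edac

open MvPolynomial

universe u v

variable {K : Type u} [Field K]

/-- A polynomial which vanishes wherever a fixed nonzero polynomial does not vanish is zero. -/
theorem eq_zero_of_generic [Infinite K] {σ : Type v} (q d : MvPolynomial σ K) (hd : d ≠ 0)
    (h : ∀ x : σ → K, eval x d ≠ 0 → eval x q = 0) : q = 0 := by
  have : q * d = 0 := by
    apply MvPolynomial.funext
    intro x
    rw [map_mul, map_zero]
    by_cases hx : eval x d = 0
    · simp [hx]
    · simp [h x hx]
  rcases mul_eq_zero.1 this with h' | h'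
  · exact h'
  · exact absurd h' hd

/-- The chain rule for a derivation and a polynomial substitution. -/
theorem derivation_aeval {σ : Type v} [Fintype σ] [DecidableEq σ] {S : Type*} [CommRing S]
    [Algebra K S] (D : Derivation K S S) (v : σ → S) (q : MvPolynomial σ K) :
    D (aeval v q) = ∑ j, aeval v (pderiv j q) * D (v j) := by
  induction q using MvPolynomial.induction_on with
  | C a => simp
  | add p q hp hq => simp only [map_add, hp, hq, add_mul, Finset.sum_add_distrib]
  | mul_X p i hp =>
    rw [map_mul, Derivation.leibniz, hp]
    have h1 : ∀ x, aeval v (pderiv x (p * X i)) * D (v x) =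
        v i * (aeval v (pderiv x p) * D (v x)) + (if x = i then aeval v p * D (v i) else 0) := by
      intro x
      rw [Derivation.leibniz, pderiv_X]
      by_cases hx : x = i
      · subst hx
        simp
        ring
      · simp [hx]
        ring
    simp only [h1, Finset.sum_add_distrib, Finset.sum_ite_eq', Finset.mem_univ, if_true,
      smul_eq_mul, aeval_X, ← Finset.mul_sum]
    ring

/-- If `∂q/∂x_i = 0` in characteristic zero then the values of `q` do not depend on `x_i`. -/
theorem eval_update_of_pderiv_eq_zero [CharZero K] {σ : Type v} [DecidableEq σ] (i : σ)
    (q : MvPolynomial σ K) (hq : pderiv i q = 0) (x : σ → K) (t : K) :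
    eval (Function.update x i t) q = eval x q := by
  let v : σ → Polynomial K := Function.update (fun j => Polynomial.C (x j)) i Polynomial.X
  have hder : ∀ p : MvPolynomial σ K,
      Polynomial.derivative (aeval v p) = aeval v (pderiv i p) := by
    intro p
    induction p using MvPolynomial.induction_on with
    | C a => simp [MvPolynomial.algebraMap_eq]
    | add p q hp hq => simp only [map_add, hp, hq]
    | mul_X p j hp =>
      rw [map_mul, Polynomial.derivative_mul, hp, Derivation.leibniz, pderiv_X]
      by_cases hj : j = i
      · subst hj
        simp [v]
        ring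
      · simp [v, hj]
        ring
  have h0 : Polynomial.derivative (aeval v q) = 0 := by rw [hder, hq, map_zero]
  have hC := Polynomial.eq_C_of_derivative_eq_zero h0
  have heval : ∀ s : K, Polynomial.eval s (aeval v q) = eval (Function.update x i s) q := by
    intro s
    have : (Polynomial.evalRingHom s).comp (aeval v : MvPolynomial σ K →ₐ[K] Polynomial K).toRingHom
        = (eval (Function.update x i s) : MvPolynomial σ K →+* K) := by
      apply MvPolynomial.ringHom_ext
      · intro r; simp
      · intro j
        by_cases hj : j = i
        · subst hj; simp [v]
        · simp [v, hj]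
    exact RingHom.congr_fun this q
  rw [← heval t, show eval x q = eval (Function.update x i (x i)) q by
    rw [Function.update_eq_self], ← heval (x i), hC]
  simp

/-- If `∂q/∂x_i = 0` in characteristic zero then `q` does not involve `x_i`. -/
theorem eq_aeval_update_of_pderiv_eq_zero [CharZero K] {σ : Type v} [DecidableEq σ] (i : σ)
    (q : MvPolynomial σ K) (hq : pderiv i q = 0) :
    aeval (Function.update (X : σ → MvPolynomial σ K) i 0) q = q := by
  apply MvPolynomial.funext
  intro x
  rw [← eval_update_of_pderiv_eq_zero i q hq x 0]
  have : (eval x).comp (aeval (Function.update (X : σ → MvPolynomial σ K) i 0) :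
      MvPolynomial σ K →ₐ[K] MvPolynomial σ K).toRingHom = eval (Function.update x i 0) := by
    apply MvPolynomial.ringHom_ext
    · intro r; simp
    · intro j
      by_cases hj : j = i
      · subst hj; simp
      · simp [hj]
  exact RingHom.congr_fun this q

/-- `x_i` divides `q - q|_{x_i = 0}`. -/
theorem X_dvd_sub {σ : Type v} [DecidableEq σ] (i : σ) (q : MvPolynomial σ K) :
    X i ∣ q - aeval (Function.update (X : σ → MvPolynomial σ K) i 0) q := by
  induction q using MvPolynomial.induction_on with
  | C a => simp
  | add p q hp hq =>
    have := dvd_add hp hq
    rw [map_add]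
    convert this using 1
    ring
  | mul_X p j hp =>
    rw [map_mul, aeval_X]
    by_cases hj : j = i
    · subst hj
      simp
    · rw [Function.update_of_ne hj]
      have := dvd_mul_of_dvd_left hp (X j)
      convert this using 1
      ring

end Pool.Agent.MP_26edac
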