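import Pool.Agent.Lib.MP_26edac_al.Defs
import Pool.Agent.Lib.MP_26edac_al.PoissonFacts
import Pool.Agent.Lib.MP_26edac_al.Poly

/-!
# The six-dimensional algebra `sl₂ ⋉ sl₂`

We work with a six-dimensional Lie algebra `L` with a basis `b 0, …, b 5`
(in the usual names `e, h, f, E, H, F`) whose brackets are given by `table`.
-/

namespace Pool.Agent.MP_26edac

open Module

universe u v

section Table

variable {K : Type u} [Field K] {M : Type v} [AddCommGroup M] [Module K M]

/-- The bracket table of `sl₂ ⋉ sl₂` with the ordered basis `e, h, f, E, H, F`. -/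
def table (K : Type u) [Field K] {M : Type v} [AddCommGroup M] [Module K M] (b : Fin 6 → M) :
    Fin 6 → Fin 6 → M :=
  ![![0, -(2 : K) • b 0, b 1, 0, -(2 : K) • b 3, b 4],
    ![(2 : K) • b 0, 0, -(2 : K) • b 2, (2 : K) • b 3, 0, -(2 : K) • b 5],
    ![-b 1, (2 : K) • b 2, 0, -b 4, (2 : K) • b 5, 0],
    ![0, -(2 : K) • b 3, b 4, 0, 0, 0],
    ![(2 : K) • b 3, 0, -(2 : K) • b 5, 0, 0, 0],
    ![-b 4, (2 : K) • b 5, 0, 0, 0, 0]]

end Table

variable {K : Type u} [Field K] {L : Type v} [LieRing L] [LieAlgebra K L]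
  (b : Basis (Fin 6) K L)

/-- The variables of the polynomial algebra `S(L)`. -/
noncomputable abbrev vr (i : Fin 6) : SymmetricAlgebra K L := SymmetricAlgebra.ι K L (b i)

/-- The first Casimir `H² + 4EF`. -/
noncomputable def C1 : SymmetricAlgebra K L := vr b 4 ^ 2 + 4 * vr b 3 * vr b 5

/-- The second Casimir `hH + 2eF + 2fE`. -/
noncomputable def C2 : SymmetricAlgebra K L :=
  vr b 1 * vr b 4 + 2 * vr b 0 * vr b 5 + 2 * vr b 2 * vr b 3

/-- The element `P = H C₂ + E² e`. -/
noncomputable def P0 : SymmetricAlgebra K L := vr b 4 * C2 b + vr b 3 ^ 2 * vr b 0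

/-- The element `G = 2 E H e C₂ + E³ e² - 4 F C₂²`. -/
noncomputable def G0 : SymmetricAlgebra K L :=
  2 * vr b 3 * vr b 4 * vr b 0 * C2 b + vr b 3 ^ 3 * vr b 0 ^ 2 - 4 * vr b 5 * C2 b ^ 2

/-- The relation between the five generators. -/
theorem relation : P0 b ^ 2 = C1 b * C2 b ^ 2 + vr b 3 * G0 b := by
  simp only [P0, G0, C1]
  ring

theorem der_two (D : Derivation K (SymmetricAlgebra K L) (SymmetricAlgebra K L)) : D 2 = 0 := by
  simpa using D.map_natCast 2

theorem der_four (D : Derivation K (SymmetricAlgebra K L) (SymmetricAlgebra K L)) : D 4 = 0 := by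
  simpa using D.map_natCast 4

/-- A derivation of `S(L)` vanishing on the six variables vanishes. -/
theorem derivation_eq_zero (D : Derivation K (SymmetricAlgebra K L) (SymmetricAlgebra K L))
    (h : ∀ i, D (vr b i) = 0) : D = 0 := by
  apply symDer_ext
  intro x
  have hx : x = ∑ i, b.repr x i • b i := (b.sum_repr x).symm
  rw [hx, map_sum]
  simp [h]

section Brackets

variable (hb : ∀ i j, ⁅b i, b j⁆ = table K b i j)

include hb

theorem poisson_vr (i j : Fin 6) : poisson K L (vr b i) (vr b j) =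
    ![![0, -2 * vr b 0, vr b 1, 0, -2 * vr b 3, vr b 4],
    ![2 * vr b 0, 0, -2 * vr b 2, 2 * vr b 3, 0, -2 * vr b 5],
    ![-vr b 1, 2 * vr b 2, 0, -vr b 4, 2 * vr b 5, 0],
    ![0, -2 * vr b 3, vr b 4, 0, 0, 0],
    ![2 * vr b 3, 0, -2 * vr b 5, 0, 0, 0],
    ![-vr b 4, 2 * vr b 5, 0, 0, 0, 0]] i j := by
  rw [poisson_ι_ι, hb]
  have h2 : ∀ a : SymmetricAlgebra K L, (2 : K) • a = 2 * a := by
    intro a
    rw [Algebra.smul_def, map_ofNat]
  fin_cases i <;> fin_cases j <;> simp [table, h2]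

theorem poisson_vr_C1 (i : Fin 6) : poisson K L (vr b i) (C1 b) = 0 := by
  have h := poisson_vr b hb
  unfold C1
  fin_cases i <;>
  · simp [Derivation.leibniz, Derivation.leibniz_pow, h, der_two, der_four]
    try ring

theorem poisson_vr_C2 (i : Fin 6) : poisson K L (vr b i) (C2 b) = 0 := by
  have h := poisson_vr b hb
  unfold C2
  fin_cases i <;>
  · simp [Derivation.leibniz, Derivation.leibniz_pow, h, der_two, der_four]
    try ring

end Brackets

end Pool.Agent.MP_26edac
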