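import Pool.Agent.Lib.MP_26edac_al.Takiff

/-!
# The maximal commutative subalgebra: commutativity and normal forms
-/

namespace Pool.Agent.MP_26edac

open Module MvPolynomial

universe u v

variable {K : Type u} [Field K] {L : Type v} [LieRing L] [LieAlgebra K L]
  (b : Basis (Fin 6) K L)

section Eval

/-- Evaluation of elements of `S(L)` at the point with coordinates `p`. -/
noncomputable def evp (p : Fin 6 → K) : SymmetricAlgebra K L →ₐ[K] K :=
  SymmetricAlgebra.lift (b.constr K p)

@[simp] theorem evp_vr (p : Fin 6 → K) (i : Fin 6) : evp b p (vr b i) = p i := by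
  simp [evp]

theorem evp_C1 (p : Fin 6 → K) : evp b p (C1 b) = p 4 ^ 2 + 4 * p 3 * p 5 := by
  simp [C1, map_ofNat]

theorem evp_C2 (p : Fin 6 → K) : evp b p (C2 b) = p 1 * p 4 + 2 * p 0 * p 5 + 2 * p 2 * p 3 := by
  simp [C2, map_ofNat]

theorem evp_P0 (p : Fin 6 → K) : evp b p (P0 b) =
    p 4 * (p 1 * p 4 + 2 * p 0 * p 5 + 2 * p 2 * p 3) + p 3 ^ 2 * p 0 := by
  simp [P0, evp_C2]

theorem evp_G0 (p : Fin 6 → K) : evp b p (G0 b) =
    2 * p 3 * p 4 * p 0 * (p 1 * p 4 + 2 * p 0 * p 5 + 2 * p 2 * p 3) + p 3 ^ 3 * p 0 ^ 2 -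
      4 * p 5 * (p 1 * p 4 + 2 * p 0 * p 5 + 2 * p 2 * p 3) ^ 2 := by
  simp [G0, evp_C2, map_ofNat]

/-- An element of `S(L)` which vanishes at all points is zero. -/
theorem eq_zero_of_evp [Infinite K] (a : SymmetricAlgebra K L) (h : ∀ p, evp b p a = 0) :
    a = 0 := by
  have h1 : ∀ (p : Fin 6 → K) (q : MvPolynomial (Fin 6) K),
      evp b p ((SymmetricAlgebra.equivMvPolynomial b).symm q) = eval p q := by
    intro p q
    have : ((evp b p).comp (SymmetricAlgebra.equivMvPolynomial b).symm.toAlgHom) =
        (aeval p : MvPolynomial (Fin 6) K →ₐ[K] K) := by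
      apply MvPolynomial.algHom_ext
      intro i
      simp
    have := DFunLike.congr_fun this q
    simpa [aeval_eq_eval] using this
  have h2 : SymmetricAlgebra.equivMvPolynomial b a = 0 := by
    apply MvPolynomial.funext
    intro p
    rw [← h1 p, AlgEquiv.symm_apply_apply, h p, map_zero]
  simpa using congrArg (SymmetricAlgebra.equivMvPolynomial b).symm h2

theorem evp_aeval {σ : Type*} (p : Fin 6 → K) (w : σ → SymmetricAlgebra K L)
    (q : MvPolynomial σ K) :
    evp b p (aeval w q) = eval (fun i => evp b p (w i)) q := by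
  have : (evp b p).comp (aeval w) = (aeval (fun i => evp b p (w i)) : MvPolynomial σ K →ₐ[K] K) := by
    apply MvPolynomial.algHom_ext
    intro i
    simp
  have := DFunLike.congr_fun this q
  simpa [aeval_eq_eval] using this

end Eval

section Commute

variable (hb : ∀ i j, ⁅b i, b j⁆ = table K b i j)

include hb

theorem poisson_C1 : poisson K L (C1 b) = 0 := by
  apply derivation_eq_zero b
  intro i
  rw [poisson_skew, poisson_vr_C1 b hb, neg_zero]

theorem poisson_C2 : poisson K L (C2 b) = 0 := by
  apply derivation_eq_zero b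
  intro i
  rw [poisson_skew, poisson_vr_C2 b hb, neg_zero]

theorem poisson_right_C1 (a : SymmetricAlgebra K L) : poisson K L a (C1 b) = 0 := by
  rw [poisson_skew, poisson_C1 b hb]; simp

theorem poisson_right_C2 (a : SymmetricAlgebra K L) : poisson K L a (C2 b) = 0 := by
  rw [poisson_skew, poisson_C2 b hb]; simp

theorem poisson_E_P0 : poisson K L (vr b 3) (P0 b) = 0 := by
  have h := poisson_vr b hb
  simp [P0, Derivation.leibniz, Derivation.leibniz_pow, h, poisson_right_C2 b hb]

theorem poisson_E_G0 : poisson K L (vr b 3) (G0 b) = 0 := by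
  have h := poisson_vr b hb
  simp [G0, Derivation.leibniz, Derivation.leibniz_pow, h, poisson_right_C2 b hb, der_two, der_four]

omit hb in
theorem poisson_self [CharZero K] (a : SymmetricAlgebra K L) : poisson K L a a = 0 := by
  have h := poisson_skew (K := K) a a
  have h2 : (2 : K) • poisson K L a a = 0 := by
    rw [two_smul]
    nth_rewrite 1 [h]
    simp
  exact (smul_eq_zero.1 h2).resolve_left two_ne_zero

theorem poisson_P0_G0 [CharZero K] : poisson K L (P0 b) (G0 b) = 0 := by
  have h := congrArg (poisson K L (P0 b)) (relation b)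
  rw [Derivation.leibniz_pow, map_add, Derivation.leibniz, Derivation.leibniz,
    Derivation.leibniz_pow, poisson_right_C1 b hb, poisson_right_C2 b hb, poisson_self,
    poisson_skew (P0 b) (vr b 3), poisson_E_P0 b hb] at h
  simp only [smul_eq_mul, mul_zero, smul_zero, neg_zero, add_zero, zero_add] at h
  have hE : vr b 3 ≠ 0 := by
    intro h0
    have := congrArg (evp b (fun _ => 1)) h0
    simp at this
  exact (mul_eq_zero.1 h.symm).resolve_left hE

/-- The five generators. -/
def gens (b : Basis (Fin 6) K L) : Set (SymmetricAlgebra K L) :=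
  {vr b 3, C1 b, C2 b, P0 b, G0 b}

/-- The subalgebra generated by the five generators. -/
noncomputable def alg (b : Basis (Fin 6) K L) : Subalgebra K (SymmetricAlgebra K L) :=
  Algebra.adjoin K (gens b)

theorem gens_commute [CharZero K] {x y : SymmetricAlgebra K L} (hx : x ∈ gens b)
    (hy : y ∈ gens b) : poisson K L x y = 0 := by
  have hEE := poisson_self (vr b 3)
  have hPP := poisson_self (P0 b)
  have hGG := poisson_self (G0 b)
  have hEP := poisson_E_P0 b hb
  have hEG := poisson_E_G0 b hb
  have hPG := poisson_P0_G0 b hb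
  have hPE : poisson K L (P0 b) (vr b 3) = 0 := by rw [poisson_skew, hEP, neg_zero]
  have hGE : poisson K L (G0 b) (vr b 3) = 0 := by rw [poisson_skew, hEG, neg_zero]
  have hGP : poisson K L (G0 b) (P0 b) = 0 := by rw [poisson_skew, hPG, neg_zero]
  have h1 := poisson_C1 b hb
  have h2 := poisson_C2 b hb
  have h1' := poisson_right_C1 b hb
  have h2' := poisson_right_C2 b hb
  simp only [gens, Set.mem_insert_iff, Set.mem_singleton_iff] at hx hy
  rcases hx with hx | hx | hx | hx | hx
  · subst hx
    rcases hy with hy | hy | hy | hy | hy <;> subst hy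
    exacts [hEE, h1' _, h2' _, hEP, hEG]
  · subst hx
    rw [h1]; rfl
  · subst hx
    rw [h2]; rfl
  · subst hx
    rcases hy with hy | hy | hy | hy | hy <;> subst hy
    exacts [hPE, h1' _, h2' _, hPP, hPG]
  · subst hx
    rcases hy with hy | hy | hy | hy | hy <;> subst hy
    exacts [hGE, h1' _, h2' _, hGP, hGG]

/-- `alg b` is commutative. -/
theorem alg_commutative [CharZero K] : IsPoissonCommutative (alg b) := by
  have key : ∀ x ∈ gens b, ∀ a ∈ alg b, poisson K L x a = 0 := by
    intro x hx a ha
    induction ha using Algebra.adjoin_induction with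
    | mem y hy => exact gens_commute b hb hx hy
    | algebraMap r => simp
    | add a c _ _ ha hc => rw [map_add, ha, hc, add_zero]
    | mul a c _ _ ha hc => rw [Derivation.leibniz, ha, hc]; simp
  intro F hF G hG
  induction hF using Algebra.adjoin_induction with
  | mem y hy => exact key y hy G hG
  | algebraMap r => simp
  | add a c _ _ ha hc => rw [map_add, Derivation.add_apply, ha, hc, add_zero]
  | mul a c _ _ ha hc =>
    rw [Derivation.leibniz, Derivation.add_apply, Derivation.smul_apply, Derivation.smul_apply,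
      ha, hc]
    simp

end Commute

section NormalForm

variable [IsAlgClosed K] [CharZero K]

/-- The substitution `K[y₁, …, y₆] → S(L)` at `E, C₁, C₂, P, H, h`. -/
noncomputable def psi : MvPolynomial (Fin 6) K →ₐ[K] SymmetricAlgebra K L :=
  aeval ![vr b 3, C1 b, C2 b, P0 b, vr b 4, vr b 1]

/-- The substitution `K[y₁, …, y₄] → S(L)` at `E, C₁, C₂, G`. -/
noncomputable def phi : MvPolynomial (Fin 4) K →ₐ[K] SymmetricAlgebra K L :=
  aeval ![vr b 3, C1 b, C2 b, G0 b]

/-- The elements `E, C₁, C₂, P, H, h` are algebraically independent. -/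
theorem psi_injective (q : MvPolynomial (Fin 6) K) (hq : psi b q = 0) : q = 0 := by
  apply eq_zero_of_generic q (X 0) (X_ne_zero 0)
  intro x hx
  rw [eval_X] at hx
  set F : K := (x 1 - x 4 ^ 2) / (4 * x 0) with hF
  set e : K := (x 3 - x 4 * x 2) / x 0 ^ 2 with he
  set f : K := (x 2 - x 5 * x 4 - 2 * e * F) / (2 * x 0) with hf
  have h2 : (2 : K) ≠ 0 := two_ne_zero
  have h4 : (4 : K) ≠ 0 := by norm_num
  have e1 : evp b ![e, x 5, f, x 0, x 4, F] (C1 b) = x 1 := by
    rw [evp_C1]
    change x 4 ^ 2 + 4 * x 0 * F = x 1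
    rw [hF]
    field_simp
    ring
  have e2 : evp b ![e, x 5, f, x 0, x 4, F] (C2 b) = x 2 := by
    rw [evp_C2]
    change x 5 * x 4 + 2 * e * F + 2 * f * x 0 = x 2
    rw [hf]
    field_simp
    ring
  have e3 : evp b ![e, x 5, f, x 0, x 4, F] (P0 b) = x 3 := by
    rw [P0, map_add, map_mul, map_mul, map_pow, e2, evp_vr, evp_vr, evp_vr]
    change x 4 * x 2 + x 0 ^ 2 * e = x 3
    rw [he]
    field_simp
    ring
  have := congrArg (evp b ![e, x 5, f, x 0, x 4, F]) hq
  rw [psi, evp_aeval, map_zero] at this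
  rw [← this]
  congr 1
  congr 1
  funext i
  fin_cases i
  · change x 0 = evp b _ (vr b 3)
    rw [evp_vr]; rfl
  · exact e1.symm
  · exact e2.symm
  · exact e3.symm
  · change x 4 = evp b _ (vr b 4)
    rw [evp_vr]; rfl
  · change x 5 = evp b _ (vr b 1)
    rw [evp_vr]; rfl

end NormalForm

end Pool.Agent.MP_26edac
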